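import Mathlib

/-!
# Quantising argument-shift subalgebras of `Z_2`-contractions: the statement

Short definitions used by the statement.
-/

set_option autoImplicit false

namespace Pool.Agent.helper5.ASQ

open Polynomial

/-! ## Generalities on algebras -/

section Algebras

variable {𝕜 : Type*} [Field 𝕜] {M : Type*} [AddCommGroup M] [Module 𝕜 M]
variable {T : Type*} [Ring T] [Algebra 𝕜 T] {S : Type*} [CommRing S] [Algebra 𝕜 S]
variable {U : Type*} [Ring U] [Algebra 𝕜 U]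

/-- the linear map `y ↦ i(y) + φ(y) X` with values in `S[X]` -/
noncomputable def line (i φ : M →ₗ[𝕜] S) : M →ₗ[𝕜] S[X] :=
  (monomial 0).restrictScalars 𝕜 ∘ₗ i + (monomial 1).restrictScalars 𝕜 ∘ₗ φ

/-- `A + A N`, where `A` is a subalgebra and `N` a subspace of `S` -/
def affine (A : Subalgebra 𝕜 S) (N : Submodule 𝕜 S) : Submodule 𝕜 S :=
  Subalgebra.toSubmodule A * (1 ⊔ N)

/-- the algebra generated by all the coefficients of the polynomials `f(F)`, `F ∈ Z` -/
def coeffAlg (f : S →ₐ[𝕜] S[X]) (Z : Set S) : Subalgebra 𝕜 S :=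
  Algebra.adjoin 𝕜 {c | ∃ F ∈ Z, ∃ n : ℕ, c = (f F).coeff n}

/-- `low N n` is the span of the products of less than `n` elements of `N` (the empty product
included); `low N 0 = 0` -/
def low (N : Submodule 𝕜 U) : ℕ → Submodule 𝕜 U
  | 0 => ⊥
  | n + 1 => (1 ⊔ N) ^ n

/-- let `p : T → S` and `q : T → U` be quotients of the algebra `T` generated by `N`: the element
`u` of `U` is a sum of products of at most `n` elements of `N` and the part of degree `n`
has the image `a` in `S` -/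
def Symbol (N : Submodule 𝕜 T) (p : T →ₐ[𝕜] S) (q : T →ₐ[𝕜] U) (n : ℕ) (a : S) (u : U) : Prop :=
  ∃ t ∈ N ^ n, p t = a ∧ u - q t ∈ low (N.map q.toLinearMap) n

/-- there is a commutative subalgebra `B` of `U` such that the span of the symbols of its
elements is `A` -/
def Lift (N : Submodule 𝕜 T) (p : T →ₐ[𝕜] S) (q : T →ₐ[𝕜] U) (A : Subalgebra 𝕜 S) : Prop :=
  ∃ B : Subalgebra 𝕜 U, (∀ x ∈ B, ∀ y ∈ B, x * y = y * x) ∧
    Submodule.span 𝕜 {a | ∃ (n : ℕ) (u : U), u ∈ B ∧ Symbol N p q n a u} =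
      Subalgebra.toSubmodule A

end Algebras

/-! ## Symmetric and enveloping algebras of a Lie algebra -/

section General

variable (𝕜 : Type*) [Field 𝕜] (L : Type*) [LieRing L] [LieAlgebra 𝕜 L]

/-- the symmetric algebra `S(L)` -/
def Sy : Type _ := SymmetricAlgebra 𝕜 L

noncomputable instance : CommRing (Sy 𝕜 L) := (inferInstance : CommRing (SymmetricAlgebra 𝕜 L))
noncomputable instance : Algebra 𝕜 (Sy 𝕜 L) :=
  (inferInstance : Algebra 𝕜 (SymmetricAlgebra 𝕜 L))

/-- the quotient map from the tensor algebra to the symmetric algebra -/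
noncomputable def toSy : TensorAlgebra 𝕜 L →ₐ[𝕜] Sy 𝕜 L := SymmetricAlgebra.algHom 𝕜 L

/-- the canonical map `L → S(L)` -/
noncomputable def inSy : L →ₗ[𝕜] Sy 𝕜 L := SymmetricAlgebra.ι 𝕜 L

variable {𝕜 L}

/-- the universal property of the symmetric algebra -/
noncomputable def liftSy {A : Type*} [CommRing A] [Algebra 𝕜 A] (f : L →ₗ[𝕜] A) :
    Sy 𝕜 L →ₐ[𝕜] A := SymmetricAlgebra.lift f

/-- a subalgebra `A` of `S(L)` lifts to `U(L)`: there is a commutative subalgebra `B` of `U(L)`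
with `gr B = A` (PBW filtration; the quotient maps from the tensor algebra identify
`gr U(L)` with `S(L)`) -/
def Lifts (A : Subalgebra 𝕜 (Sy 𝕜 L)) : Prop :=
  Lift (LinearMap.range (TensorAlgebra.ι 𝕜)) (toSy 𝕜 L)
    (UniversalEnvelopingAlgebra.mkAlgHom 𝕜 L) A

/-- for a linear map `φ : L → S(L)`, the algebra homomorphism `S(L) → S(L)[X]` with
`y ↦ y + φ(y) X` -/
noncomputable def expand (φ : L →ₗ[𝕜] Sy 𝕜 L) : Sy 𝕜 L →ₐ[𝕜] (Sy 𝕜 L)[X] :=
  liftSy (line (inSy 𝕜 L) φ)

variable (𝕜 L) in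
/-- the Poisson centre `S(L)^L`: the elements killed by the derivations of `S(L)` extending the
maps `ad x` (the derivation is the coefficient of `X` in `expand`) -/
def centre : Set (Sy 𝕜 L) :=
  {F | ∀ x : L, (expand (inSy 𝕜 L ∘ₗ LieAlgebra.ad 𝕜 L x) F).coeff 1 = 0}

/-- the argument shift subalgebra `F_ξ(Z)`: it is generated by all the coefficients of the
polynomials `F(x + t ξ)` with `F ∈ Z` -/
noncomputable def shiftAlg (ξ : L →ₗ[𝕜] 𝕜) (Z : Set (Sy 𝕜 L)) : Subalgebra 𝕜 (Sy 𝕜 L) :=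
  coeffAlg (expand (Algebra.linearMap 𝕜 (Sy 𝕜 L) ∘ₗ ξ)) Z

/-- `S(V) + S(V) L` for a subspace `V` of `L` -/
noncomputable def firstOrder (V : Submodule 𝕜 L) : Submodule 𝕜 (Sy 𝕜 L) :=
  affine (Algebra.adjoin 𝕜 (inSy 𝕜 L '' (V : Set L))) (LinearMap.range (inSy 𝕜 L))

/-- the subalgebra of the Poisson centre generated by its elements in `S(V) + S(V) L` -/
noncomputable def firstCentre (V : Submodule 𝕜 L) : Subalgebra 𝕜 (Sy 𝕜 L) :=
  Algebra.adjoin 𝕜 {F | F ∈ centre 𝕜 L ∧ F ∈ firstOrder V}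

/-- the argument shift subalgebra `F_ξ(S(L)^L)` lifts to `U(L)` -/
def ShiftLifts (ξ : L →ₗ[𝕜] 𝕜) : Prop := Lifts (shiftAlg ξ (centre 𝕜 L))

/-- the argument shift subalgebra `F_ξ(Z)` lifts to `U(L)`, where `Z` is the subalgebra of
the Poisson centre generated by its elements in `S(V) + S(V) L` -/
def FirstShiftLifts (V : Submodule 𝕜 L) (ξ : L →ₗ[𝕜] 𝕜) : Prop :=
  Lifts (shiftAlg ξ (firstCentre V : Set (Sy 𝕜 L)))

/-- the Poisson centre is generated by its elements in `S(V) + S(V) L` -/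
def FirstGenerated (V : Submodule 𝕜 L) : Prop :=
  (firstCentre V : Set (Sy 𝕜 L)) = centre 𝕜 L

end General

/-! ## The `Z_2`-contraction -/

/-- an involution of a Lie algebra -/
structure Invol (𝕜 : Type*) [Field 𝕜] (g : Type*) [LieRing g] [LieAlgebra 𝕜 g] where
  /-- the underlying homomorphism -/
  hom : g →ₗ⁅𝕜⁆ g
  /-- its square is the identity -/
  hom_hom : ∀ x, hom (hom x) = x

section Contraction

variable {𝕜 : Type*} [Field 𝕜] {g : Type*} [LieRing g] [LieAlgebra 𝕜 g] (θ : Invol 𝕜 g)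

/-- the component of `x` in `g_0`, the eigenspace of `θ` with eigenvalue `1` -/
noncomputable def even (x : g) : g := (2 : 𝕜)⁻¹ • (x + θ.hom x)

/-- the component of `x` in `g_1`, the eigenspace of `θ` with eigenvalue `-1` -/
noncomputable def oddc (x : g) : g := (2 : 𝕜)⁻¹ • (x - θ.hom x)

/-- the Lie bracket of the contraction on the space `g`:
`[x, y] = [x_0, y_0] + [x_0, y_1] + [x_1, y_0]`, where `x = x_0 + x_1`, `y = y_0 + y_1` -/
noncomputable def brk (x y : g) : g :=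
  ⁅even θ x, even θ y⁆ + ⁅even θ x, oddc θ y⁆ + ⁅oddc θ x, even θ y⁆

variable {k : Type*} [LieRing k] [LieAlgebra 𝕜 k]

/-- the Lie algebra `k` is the `Z_2`-contraction `g_0 ⋉ g_1` of `g`, through the linear
isomorphism `e : g → k` -/
def IsContraction (e : g ≃ₗ[𝕜] k) : Prop := ∀ x y : g, ⁅e x, e y⁆ = e (brk θ x y)

/-- the abelian ideal `g_1` of the contraction -/
def odd (e : g ≃ₗ[𝕜] k) : Submodule 𝕜 k :=
  Submodule.map (e : g →ₗ[𝕜] k) (LinearMap.ker (LinearMap.id + (θ.hom : g →ₗ[𝕜] g)))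

end Contraction

end Pool.Agent.helper5.ASQ
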