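import Mathlib

/-!
# Quantising argument-shift subalgebras of `Z_2`-contractions: definitions
-/

set_option autoImplicit false

namespace Pool.Agent.helper5.AS

open Polynomial

/-! ## Symmetric algebra, enveloping algebra and the symbol -/

section General

variable (𝕜 : Type*) [Field 𝕜] (L : Type*) [LieRing L] [LieAlgebra 𝕜 L]

/-- the symmetric algebra `S(L)` -/
abbrev Sy : Type _ := SymmetricAlgebra 𝕜 L

/-- the enveloping algebra `U(L)` -/
abbrev Ue : Type _ := UniversalEnvelopingAlgebra 𝕜 L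

/-- the homogeneous component `S^n(L)` of the symmetric algebra -/
noncomputable def symPow (n : ℕ) : Submodule 𝕜 (Sy 𝕜 L) :=
  LinearMap.range (SymmetricAlgebra.ι 𝕜 L) ^ n

/-- the canonical linear map from `L` to `U(L)` -/
noncomputable def ιU : L →ₗ[𝕜] Ue 𝕜 L :=
  (UniversalEnvelopingAlgebra.mkAlgHom 𝕜 L).toLinearMap ∘ₗ TensorAlgebra.ι 𝕜

/-- the image of `L` in `U(L)` -/
noncomputable def imU : Submodule 𝕜 (Ue 𝕜 L) := LinearMap.range (ιU 𝕜 L)

/-- the PBW filtration, shifted by one: `lowU 0 = 0` and `lowU (n + 1) = U_n(L)` is the span of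
the products of at most `n` elements of `L`; so `lowU n = U_{n-1}(L)` -/
noncomputable def lowU : ℕ → Submodule 𝕜 (Ue 𝕜 L)
  | 0 => ⊥
  | n + 1 => (1 ⊔ imU 𝕜 L) ^ n

variable {𝕜 L}

/-- `IsSymbol n a u`: the element `u` of `U(L)` lies in `U_n(L)` and its class modulo
`U_{n-1}(L)` is the element `a` of `S^n(L)`.  (There is a tensor `t` of degree `n` with image
`a` in `S(L)` and with `u` congruent to its image in `U(L)` modulo `U_{n-1}(L)`.) -/
def IsSymbol (n : ℕ) (a : Sy 𝕜 L) (u : Ue 𝕜 L) : Prop :=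
  ∃ t ∈ (LinearMap.range (TensorAlgebra.ι 𝕜 : L →ₗ[𝕜] TensorAlgebra 𝕜 L)) ^ n,
    SymmetricAlgebra.algHom 𝕜 L t = a ∧
    u - UniversalEnvelopingAlgebra.mkAlgHom 𝕜 L t ∈ lowU 𝕜 L n

/-- the associated graded space of a subalgebra of `U(L)`, as a subspace of
`gr U(L) = S(L)`: the span of the symbols of its elements -/
noncomputable def grSub (B : Subalgebra 𝕜 (Ue 𝕜 L)) : Submodule 𝕜 (Sy 𝕜 L) :=
  Submodule.span 𝕜 {a | ∃ (n : ℕ) (u : Ue 𝕜 L), u ∈ B ∧ IsSymbol n a u}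

/-- a subalgebra `A` of `S(L)` lifts to `U(L)`: there is a commutative subalgebra `B` of `U(L)`
with `gr B = A` -/
def Lifts (A : Subalgebra 𝕜 (Sy 𝕜 L)) : Prop :=
  ∃ B : Subalgebra 𝕜 (Ue 𝕜 L), (∀ x ∈ B, ∀ y ∈ B, x * y = y * x) ∧
    grSub B = Subalgebra.toSubmodule A

/-! ## Derivations, the Poisson centre and the argument shift -/

/-- for a linear map `φ : L → S(L)`, the algebra homomorphism `S(L) → S(L)[X]` with
`y ↦ y + φ(y) X` -/
noncomputable def expand (φ : L →ₗ[𝕜] Sy 𝕜 L) : Sy 𝕜 L →ₐ[𝕜] (Sy 𝕜 L)[X] :=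
  SymmetricAlgebra.lift
    { toFun := fun y => C (SymmetricAlgebra.ι 𝕜 L y) + C (φ y) * X
      map_add' := fun a b => by simp only [map_add]; ring
      map_smul' := fun c a => by
        simp only [map_smul, RingHom.id_apply, ← Polynomial.smul_C]
        rw [smul_add, smul_mul_assoc] }

/-- the derivation of `S(L)` which extends the linear map `φ : L → S(L)` (the coefficient of `X`
in `expand φ F`) -/
noncomputable def der (φ : L →ₗ[𝕜] Sy 𝕜 L) (F : Sy 𝕜 L) : Sy 𝕜 L := (expand φ F).coeff 1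

/-- the adjoint action of `x` on `S(L)` -/
noncomputable def adS (x : L) : Sy 𝕜 L → Sy 𝕜 L :=
  der (SymmetricAlgebra.ι 𝕜 L ∘ₗ (LieAlgebra.ad 𝕜 L x))

variable (𝕜 L) in
/-- the Poisson centre `S(L)^L` -/
def centre : Set (Sy 𝕜 L) := {F | ∀ x : L, adS x F = 0}

/-- the homomorphism `F(x) ↦ F(x + t ξ)` with values in the polynomials in `t` -/
noncomputable def shift (ξ : L →ₗ[𝕜] 𝕜) : Sy 𝕜 L →ₐ[𝕜] (Sy 𝕜 L)[X] :=
  expand (Algebra.linearMap 𝕜 (Sy 𝕜 L) ∘ₗ ξ)

/-- the argument shift subalgebra `F_ξ(Z)`: it is generated by all the coefficients of the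
polynomials `F(x + t ξ)` with `F ∈ Z` -/
noncomputable def shiftAlg (ξ : L →ₗ[𝕜] 𝕜) (Z : Set (Sy 𝕜 L)) : Subalgebra 𝕜 (Sy 𝕜 L) :=
  Algebra.adjoin 𝕜 {c | ∃ F ∈ Z, ∃ n : ℕ, c = (shift ξ F).coeff n}

end General

end Pool.Agent.helper5.AS
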