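import Mathlib
import Pool.Agent.helper5.AS.Defs

/-!
# The PBW filtration
-/

set_option autoImplicit false

namespace Pool.Agent.helper5.AS

variable {𝕜 : Type*} [Field 𝕜] {L : Type*} [LieRing L] [LieAlgebra 𝕜 L]

/-- the image of `L` in the tensor algebra -/
noncomputable def imT (𝕜 : Type*) [Field 𝕜] (L : Type*) [LieRing L] [LieAlgebra 𝕜 L] :
    Submodule 𝕜 (TensorAlgebra 𝕜 L) :=
  LinearMap.range (TensorAlgebra.ι 𝕜 : L →ₗ[𝕜] TensorAlgebra 𝕜 L)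

/-- the image of `L` in the symmetric algebra -/
noncomputable def imS (𝕜 : Type*) [Field 𝕜] (L : Type*) [LieRing L] [LieAlgebra 𝕜 L] :
    Submodule 𝕜 (Sy 𝕜 L) := LinearMap.range (SymmetricAlgebra.ι 𝕜 L)

/-- the projection to `S(L)` -/
noncomputable abbrev pS : TensorAlgebra 𝕜 L →ₐ[𝕜] Sy 𝕜 L := SymmetricAlgebra.algHom 𝕜 L

/-- the projection to `U(L)` -/
noncomputable abbrev pU : TensorAlgebra 𝕜 L →ₐ[𝕜] Ue 𝕜 L :=
  UniversalEnvelopingAlgebra.mkAlgHom 𝕜 L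

theorem pS_ι (x : L) : pS (TensorAlgebra.ι 𝕜 x) = SymmetricAlgebra.ι 𝕜 L x := rfl

theorem pU_ι (x : L) : pU (TensorAlgebra.ι 𝕜 x) = ιU 𝕜 L x := rfl

theorem ιU_comm (x y : L) : ιU 𝕜 L x * ιU 𝕜 L y - ιU 𝕜 L y * ιU 𝕜 L x = ιU 𝕜 L ⁅x, y⁆ := by
  let _ : LieRing (Ue 𝕜 L) := LieRing.ofAssociativeRing
  have h := LieHom.map_lie (UniversalEnvelopingAlgebra.ι 𝕜 : L →ₗ⁅𝕜⁆ Ue 𝕜 L) x y
  rw [LieRing.of_associative_ring_bracket] at h
  exact h.symm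

theorem lowU_succ (n : ℕ) : lowU 𝕜 L (n + 1) = (1 ⊔ imU 𝕜 L) ^ n := rfl

theorem lowU_zero : lowU 𝕜 L 0 = ⊥ := rfl

theorem lowU_le_succ (n : ℕ) : lowU 𝕜 L n ≤ lowU 𝕜 L (n + 1) := by
  cases n with
  | zero => exact bot_le
  | succ n =>
    rw [lowU_succ, lowU_succ, pow_succ]
    calc (1 ⊔ imU 𝕜 L) ^ n = (1 ⊔ imU 𝕜 L) ^ n * 1 := (mul_one _).symm
      _ ≤ (1 ⊔ imU 𝕜 L) ^ n * (1 ⊔ imU 𝕜 L) := mul_le_mul' le_rfl le_sup_left

theorem lowU_mono : Monotone (lowU 𝕜 L) := monotone_nat_of_le_succ lowU_le_succ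

theorem lowU_mul (m n : ℕ) : lowU 𝕜 L (m + 1) * lowU 𝕜 L (n + 1) = lowU 𝕜 L (m + n + 1) := by
  rw [lowU_succ, lowU_succ, lowU_succ, pow_add]

theorem mul_mem_lowU {m n : ℕ} {u v : Ue 𝕜 L} (hu : u ∈ lowU 𝕜 L (m + 1))
    (hv : v ∈ lowU 𝕜 L n) : u * v ∈ lowU 𝕜 L (m + n) := by
  cases n with
  | zero =>
    rw [lowU_zero, Submodule.mem_bot] at hv
    rw [hv, mul_zero]
    exact zero_mem _
  | succ n =>
    have h := Submodule.mul_mem_mul hu hv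
    rwa [lowU_mul] at h

theorem mul_mem_lowU' {m n : ℕ} {u v : Ue 𝕜 L} (hu : u ∈ lowU 𝕜 L n)
    (hv : v ∈ lowU 𝕜 L (m + 1)) : u * v ∈ lowU 𝕜 L (n + m) := by
  cases n with
  | zero =>
    rw [lowU_zero, Submodule.mem_bot] at hu
    rw [hu, zero_mul]
    exact zero_mem _
  | succ n =>
    have h := Submodule.mul_mem_mul hu hv
    rw [lowU_mul] at h
    have h2 : n + 1 + m = n + m + 1 := by omega
    rwa [h2]

theorem ιU_mem (x : L) : ιU 𝕜 L x ∈ lowU 𝕜 L 2 := by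
  rw [lowU_succ, pow_one]
  exact (le_sup_right : imU 𝕜 L ≤ 1 ⊔ imU 𝕜 L) ⟨x, rfl⟩

theorem one_mem_lowU : (1 : Ue 𝕜 L) ∈ lowU 𝕜 L 1 := by
  rw [lowU_succ, pow_zero]
  exact Submodule.one_le.1 le_rfl

theorem pU_mem_pow {n : ℕ} {t : TensorAlgebra 𝕜 L} (ht : t ∈ imT 𝕜 L ^ n) :
    pU t ∈ imU 𝕜 L ^ n := by
  have h : Submodule.map (pU (𝕜 := 𝕜) (L := L)).toLinearMap (imT 𝕜 L ^ n) = imU 𝕜 L ^ n := by
    rw [Submodule.map_pow]
    congr 1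
    rw [imT, imU, ιU, LinearMap.range_comp]
  rw [← h]
  exact Submodule.mem_map_of_mem ht

theorem pU_mem {n : ℕ} {t : TensorAlgebra 𝕜 L} (ht : t ∈ imT 𝕜 L ^ n) :
    pU t ∈ lowU 𝕜 L (n + 1) :=
  pow_le_pow_left' (le_sup_right : imU 𝕜 L ≤ 1 ⊔ imU 𝕜 L) n (pU_mem_pow ht)

theorem pS_mem {n : ℕ} {t : TensorAlgebra 𝕜 L} (ht : t ∈ imT 𝕜 L ^ n) :
    pS t ∈ imS 𝕜 L ^ n := by
  have h : Submodule.map (pS (𝕜 := 𝕜) (L := L)).toLinearMap (imT 𝕜 L ^ n) = imS 𝕜 L ^ n := by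
    rw [Submodule.map_pow]
    congr 1
    rw [imT, imS, ← LinearMap.range_comp]
    rfl
  rw [← h]
  exact Submodule.mem_map_of_mem ht

/-! ## symbols -/

theorem IsSymbol.mem_low {n : ℕ} {a : Sy 𝕜 L} {u : Ue 𝕜 L} (h : IsSymbol n a u) :
    u ∈ lowU 𝕜 L (n + 1) := by
  obtain ⟨t, ht, _, h2⟩ := h
  have h3 := add_mem (lowU_le_succ n h2) (pU_mem ht)
  rwa [sub_add_cancel] at h3

theorem IsSymbol.mem_sym {n : ℕ} {a : Sy 𝕜 L} {u : Ue 𝕜 L} (h : IsSymbol n a u) :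
    a ∈ imS 𝕜 L ^ n := by
  obtain ⟨t, ht, h1, _⟩ := h
  rw [← h1]
  exact pS_mem ht

theorem IsSymbol.add {n : ℕ} {a b : Sy 𝕜 L} {u v : Ue 𝕜 L} (h : IsSymbol n a u)
    (h' : IsSymbol n b v) : IsSymbol n (a + b) (u + v) := by
  obtain ⟨t, ht, h1, h2⟩ := h
  obtain ⟨t', ht', h1', h2'⟩ := h'
  refine ⟨t + t', add_mem ht ht', by rw [map_add, h1, h1'], ?_⟩
  rw [map_add, add_sub_add_comm]
  exact add_mem h2 h2'

theorem IsSymbol.smul {n : ℕ} {a : Sy 𝕜 L} {u : Ue 𝕜 L} (c : 𝕜) (h : IsSymbol n a u) :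
    IsSymbol n (c • a) (c • u) := by
  obtain ⟨t, ht, h1, h2⟩ := h
  refine ⟨c • t, Submodule.smul_mem _ c ht, by rw [map_smul, h1], ?_⟩
  rw [map_smul, ← smul_sub]
  exact Submodule.smul_mem _ c h2

theorem IsSymbol.of_low {n : ℕ} {u : Ue 𝕜 L} (h : u ∈ lowU 𝕜 L n) : IsSymbol n 0 u :=
  ⟨0, zero_mem _, map_zero _, by rw [map_zero, sub_zero]; exact h⟩

theorem IsSymbol.mul {m n : ℕ} {a b : Sy 𝕜 L} {u v : Ue 𝕜 L} (h : IsSymbol m a u)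
    (h' : IsSymbol n b v) : IsSymbol (m + n) (a * b) (u * v) := by
  obtain ⟨t, ht, h1, h2⟩ := h
  have hv := h'.mem_low
  obtain ⟨t', ht', h1', h2'⟩ := h'
  refine ⟨t * t', ?_, by rw [map_mul, h1, h1'], ?_⟩
  · rw [pow_add]
    exact Submodule.mul_mem_mul ht ht'
  · have h3 : u * v - pU (t * t') = (u - pU t) * v + pU t * (v - pU t') := by
      rw [map_mul]
      noncomm_ring
    rw [h3]
    exact add_mem (mul_mem_lowU' h2 hv) (mul_mem_lowU (pU_mem ht) h2')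

theorem isSymbol_one : IsSymbol 0 (1 : Sy 𝕜 L) (1 : Ue 𝕜 L) :=
  ⟨1, by rw [pow_zero]; exact Submodule.one_le.1 le_rfl, map_one _, by
    rw [map_one, sub_self]; exact zero_mem _⟩

theorem isSymbol_ι (x : L) : IsSymbol 1 (SymmetricAlgebra.ι 𝕜 L x) (ιU 𝕜 L x) :=
  ⟨TensorAlgebra.ι 𝕜 x, by rw [pow_one]; exact ⟨x, rfl⟩, rfl, by
    rw [pU_ι, sub_self]; exact zero_mem _⟩

/-- every element of `U_n` has a symbol -/
theorem exists_symbol {n : ℕ} {u : Ue 𝕜 L} (hu : u ∈ lowU 𝕜 L (n + 1)) :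
    ∃ a, IsSymbol n a u := by
  induction n generalizing u with
  | zero =>
    rw [lowU_succ, pow_zero] at hu
    obtain ⟨c, rfl⟩ := Submodule.mem_one.1 hu
    refine ⟨c • 1, ?_⟩
    rw [Algebra.algebraMap_eq_smul_one]
    exact isSymbol_one.smul c
  | succ n ih =>
    rw [lowU_succ, pow_succ] at hu
    refine Submodule.mul_induction_on hu ?_ ?_
    · intro v hv w hw
      obtain ⟨w1, hw1, w2, ⟨x, rfl⟩, rfl⟩ := Submodule.mem_sup.1 hw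
      obtain ⟨c, rfl⟩ := Submodule.mem_one.1 hw1
      obtain ⟨a, ha⟩ := ih hv
      refine ⟨0 + a * SymmetricAlgebra.ι 𝕜 L x, ?_⟩
      rw [mul_add]
      refine IsSymbol.add (IsSymbol.of_low ?_) (ha.mul (isSymbol_ι x))
      rw [← Algebra.commutes, ← Algebra.smul_def]
      exact Submodule.smul_mem _ c hv
    · rintro v w ⟨a, ha⟩ ⟨b, hb⟩
      exact ⟨a + b, ha.add hb⟩

theorem exists_mem_lowU (u : Ue 𝕜 L) : ∃ n, u ∈ lowU 𝕜 L n := by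
  obtain ⟨t, rfl⟩ : ∃ t, pU t = u := RingCon.mk'_surjective _ u
  induction t using TensorAlgebra.induction with
  | algebraMap r =>
    refine ⟨1, ?_⟩
    rw [AlgHom.commutes, Algebra.algebraMap_eq_smul_one]
    exact Submodule.smul_mem _ r one_mem_lowU
  | ι x => exact ⟨2, ιU_mem x⟩
  | mul a b ha hb =>
    obtain ⟨m, hm⟩ := ha
    obtain ⟨n, hn⟩ := hb
    refine ⟨m + n, ?_⟩
    rw [map_mul]
    exact mul_mem_lowU (lowU_le_succ m hm) hn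
  | add a b ha hb =>
    obtain ⟨m, hm⟩ := ha
    obtain ⟨n, hn⟩ := hb
    refine ⟨max m n, ?_⟩
    rw [map_add]
    exact add_mem (lowU_mono (le_max_left _ _) hm) (lowU_mono (le_max_right _ _) hn)

end Pool.Agent.helper5.AS
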