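import Mathlib
import Pool.Agent.helper5.AS.Filt

/-!
# Injectivity of `S^n(L) → U_n / U_{n-1}` for a Lie algebra with trivial centre

The Lie algebra acts by derivations on the functions on `End L` (the left invariant vector
fields); applying elements of `U_n` to `f ^ n` with `f` vanishing at the identity gives the
symbol.
-/

set_option autoImplicit false

namespace Pool.Agent.helper5.AS

open MvPolynomial

attribute [local instance 100] LieRing.ofAssociativeRing

variable {𝕜 : Type*} [Field 𝕜] {L : Type*} [LieRing L] [LieAlgebra 𝕜 L]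

section

/-- the dual of `End L` -/
abbrev DE (𝕜 : Type*) [Field 𝕜] (L : Type*) [LieRing L] [LieAlgebra 𝕜 L] : Type _ :=
  Module.Dual 𝕜 (Module.End 𝕜 L)

/-- the action of `x` on the dual of `End L` -/
noncomputable def actE (x : L) : DE 𝕜 L →ₗ[𝕜] DE 𝕜 L :=
  (LinearMap.mulRight 𝕜 (LieAlgebra.ad 𝕜 L x : Module.End 𝕜 L)).dualMap

theorem actE_apply (x : L) (f : DE 𝕜 L) (e : Module.End 𝕜 L) :
    actE x f e = f (e * LieAlgebra.ad 𝕜 L x) := rfl

variable {κ : Type*} (bM : Module.Basis κ 𝕜 (DE 𝕜 L))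

/-- the linear functions -/
noncomputable def lf : DE 𝕜 L →ₗ[𝕜] MvPolynomial κ 𝕜 := bM.constr 𝕜 MvPolynomial.X

/-- the invariant vector fields -/
noncomputable def vf (x : L) : Derivation 𝕜 (MvPolynomial κ 𝕜) (MvPolynomial κ 𝕜) :=
  MvPolynomial.mkDerivation 𝕜 fun i => lf bM (actE x (bM i))

theorem vf_lf (x : L) (m : DE 𝕜 L) : vf bM x (lf bM m) = lf bM (actE x m) := by
  have h : (vf bM x).toLinearMap ∘ₗ lf bM = lf bM ∘ₗ actE x := by
    refine bM.ext fun i => ?_
    show vf bM x (lf bM (bM i)) = lf bM (actE x (bM i))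
    rw [lf, Module.Basis.constr_basis, vf, MvPolynomial.mkDerivation_X]
    rfl
  exact congrArg (fun F : DE 𝕜 L →ₗ[𝕜] MvPolynomial κ 𝕜 => F m) h

theorem vf_add (x y : L) : vf bM (x + y) = vf bM x + vf bM y := by
  refine MvPolynomial.derivation_ext fun i => ?_
  rw [Derivation.add_apply, vf, vf, vf, mkDerivation_X, mkDerivation_X, mkDerivation_X,
    ← map_add]
  congr 1
  refine LinearMap.ext fun e => ?_
  rw [LinearMap.add_apply, actE_apply, actE_apply, actE_apply, map_add, mul_add, map_add]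

theorem vf_smul (c : 𝕜) (x : L) : vf bM (c • x) = c • vf bM x := by
  refine MvPolynomial.derivation_ext fun i => ?_
  rw [Derivation.smul_apply, vf, vf, mkDerivation_X, mkDerivation_X, ← map_smul]
  congr 1
  refine LinearMap.ext fun e => ?_
  rw [LinearMap.smul_apply, actE_apply, actE_apply, map_smul, mul_smul_comm, map_smul]

theorem vf_lie (x y : L) (F : MvPolynomial κ 𝕜) :
    vf bM ⁅x, y⁆ F = vf bM x (vf bM y F) - vf bM y (vf bM x F) := by
  have h : vf bM ⁅x, y⁆ = ⁅vf bM x, vf bM y⁆ := by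
    refine MvPolynomial.derivation_ext fun i => ?_
    rw [Derivation.commutator_apply]
    have h1 : ∀ z, vf bM z (X i) = lf bM (actE z (bM i)) := fun z => by
      rw [vf, mkDerivation_X]
    rw [h1, h1, h1, vf_lf, vf_lf, ← map_sub]
    congr 1
    refine LinearMap.ext fun e => ?_
    rw [LinearMap.sub_apply, actE_apply, actE_apply, actE_apply, actE_apply, actE_apply,
      ← map_sub]
    congr 1
    rw [LieHom.map_lie, LieRing.of_associative_ring_bracket, mul_sub, mul_assoc, mul_assoc]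
  rw [h, Derivation.commutator_apply]

/-- the action of `U(L)` by differential operators -/
noncomputable def opU : Ue 𝕜 L →ₐ[𝕜] Module.End 𝕜 (MvPolynomial κ 𝕜) :=
  UniversalEnvelopingAlgebra.lift 𝕜
    { toFun := fun x => (vf bM x : MvPolynomial κ 𝕜 →ₗ[𝕜] MvPolynomial κ 𝕜)
      map_add' := fun x y => by
        rw [vf_add]
        rfl
      map_smul' := fun c x => by
        rw [vf_smul]
        rfl
      map_lie' := fun {x y} => by
        refine LinearMap.ext fun F => ?_
        rw [LieRing.of_associative_ring_bracket]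
        exact vf_lie bM x y F }

theorem opU_ι (x : L) (F : MvPolynomial κ 𝕜) : opU bM (ιU 𝕜 L x) F = vf bM x F := by
  have h := UniversalEnvelopingAlgebra.lift_ι_apply 𝕜 (A := Module.End 𝕜 (MvPolynomial κ 𝕜))
    { toFun := fun x => (vf bM x : MvPolynomial κ 𝕜 →ₗ[𝕜] MvPolynomial κ 𝕜)
      map_add' := fun x y => by
        rw [vf_add]
        rfl
      map_smul' := fun c x => by
        rw [vf_smul]
        rfl
      map_lie' := fun {x y} => by
        refine LinearMap.ext fun F => ?_
        rw [LieRing.of_associative_ring_bracket]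
        exact vf_lie bM x y F } x
  exact congrArg (fun E : Module.End 𝕜 (MvPolynomial κ 𝕜) => E F) h

/-- evaluation at the identity of `End L` -/
noncomputable def evI : MvPolynomial κ 𝕜 →ₐ[𝕜] 𝕜 := aeval fun i => bM i 1

theorem evI_lf (m : DE 𝕜 L) : evI bM (lf bM m) = m 1 := by
  have h : (evI bM).toLinearMap ∘ₗ lf bM = Module.Dual.eval 𝕜 (Module.End 𝕜 L) 1 := by
    refine bM.ext fun i => ?_
    show evI bM (lf bM (bM i)) = bM i 1
    rw [lf, Module.Basis.constr_basis, evI, aeval_X]
  exact congrArg (fun F : DE 𝕜 L →ₗ[𝕜] 𝕜 => F m) h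

theorem vf_pow_succ (x : L) (f h : MvPolynomial κ 𝕜) (n : ℕ) :
    vf bM x (f ^ (n + 1) * h) =
      f ^ n * (((n : MvPolynomial κ 𝕜) + 1) * vf bM x f * h) + f ^ (n + 1) * vf bM x h := by
  rw [Derivation.leibniz, Derivation.leibniz_pow, Nat.add_sub_cancel, nsmul_eq_mul,
    smul_eq_mul, smul_eq_mul, smul_eq_mul]
  push_cast
  ring

/-- operators of order less than `n` applied to `f ^ n` vanish where `f` does -/
theorem low_vanish {f : MvPolynomial κ 𝕜} (hf : evI bM f = 0) {m : ℕ} {u : Ue 𝕜 L}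
    (hu : u ∈ lowU 𝕜 L (m + 1)) {n : ℕ} (hn : m < n) (h : MvPolynomial κ 𝕜) :
    evI bM (opU bM u (f ^ n * h)) = 0 := by
  induction m generalizing u n h with
  | zero =>
    rw [lowU_succ, pow_zero] at hu
    obtain ⟨c, rfl⟩ := Submodule.mem_one.1 hu
    rw [AlgHom.commutes, Algebra.algebraMap_eq_smul_one, LinearMap.smul_apply,
      Module.End.one_apply, map_smul, map_mul, map_pow, hf, zero_pow hn.ne', zero_mul,
      smul_zero]
  | succ m ih =>
    rw [lowU_succ, pow_succ] at hu
    refine Submodule.mul_induction_on hu ?_ ?_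
    · intro v hv w hw
      obtain ⟨w1, hw1, w2, ⟨x, rfl⟩, rfl⟩ := Submodule.mem_sup.1 hw
      obtain ⟨c, rfl⟩ := Submodule.mem_one.1 hw1
      obtain ⟨k, rfl⟩ : ∃ k, n = k + 1 := ⟨n - 1, by omega⟩
      have h1 : opU bM (v * (algebraMap 𝕜 _ c + ιU 𝕜 L x)) (f ^ (k + 1) * h) =
          opU bM v (f ^ k * (c • (f * h) + ((k : MvPolynomial κ 𝕜) + 1) * vf bM x f * h +
            f * vf bM x h)) := by
        rw [map_mul (opU bM), Module.End.mul_apply, map_add (opU bM), LinearMap.add_apply,
          AlgHom.commutes,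
          Algebra.algebraMap_eq_smul_one, LinearMap.smul_apply, Module.End.one_apply, opU_ι,
          vf_pow_succ]
        congr 1
        rw [MvPolynomial.smul_eq_C_mul, MvPolynomial.smul_eq_C_mul]
        ring
      rw [h1]
      exact ih hv (by omega) _
    · intro v w hv hw
      rw [map_add, LinearMap.add_apply, map_add, hv, hw, add_zero]

/-- the leading part -/
theorem top_eval {f : MvPolynomial κ 𝕜} (hf : evI bM f = 0) (φ : L →ₗ[𝕜] 𝕜)
    (hφ : ∀ x, evI bM (vf bM x f) = φ x) {m : ℕ} {t : TensorAlgebra 𝕜 L}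
    (ht : t ∈ imT 𝕜 L ^ m) (h : MvPolynomial κ 𝕜) :
    evI bM (opU bM (pU t) (f ^ m * h)) =
      (m.factorial : 𝕜) * SymmetricAlgebra.lift φ (pS t) * evI bM h := by
  induction m generalizing t h with
  | zero =>
    rw [pow_zero] at ht
    obtain ⟨c, rfl⟩ := Submodule.mem_one.1 ht
    rw [AlgHom.commutes, AlgHom.commutes, AlgHom.commutes, AlgHom.commutes,
      Algebra.algebraMap_eq_smul_one, LinearMap.smul_apply,
      Module.End.one_apply, map_smul, pow_zero, one_mul, Nat.factorial_zero, Nat.cast_one,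
      one_mul, smul_eq_mul]
    rfl
  | succ m ih =>
    rw [pow_succ] at ht
    refine Submodule.mul_induction_on ht ?_ ?_
    · rintro t ht _ ⟨x, rfl⟩
      rw [map_mul (pU (𝕜 := 𝕜) (L := L)), map_mul (opU bM), Module.End.mul_apply, pU_ι, opU_ι,
        vf_pow_succ, map_add (opU bM (pU t)), map_add (evI bM),
        low_vanish bM hf (pU_mem ht) (Nat.lt_succ_self m), add_zero, ih ht,
        map_mul (evI bM), map_mul (evI bM), hφ, map_mul (pS (𝕜 := 𝕜) (L := L)), pS_ι,
        map_mul (SymmetricAlgebra.lift φ), SymmetricAlgebra.lift_ι_apply, Nat.factorial_succ]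
      push_cast
      rw [map_add, map_natCast, map_one]
      ring
    · intro v w hv hw
      rw [map_add, map_add, map_add, map_add, LinearMap.add_apply, map_add, hv, hw]
      ring

end

theorem eq_zero_of_eval [CharZero 𝕜] {a : Sy 𝕜 L}
    (h : ∀ φ : L →ₗ[𝕜] 𝕜, SymmetricAlgebra.lift φ a = 0) : a = 0 := by
  let b := Module.Basis.ofVectorSpace 𝕜 L
  apply (SymmetricAlgebra.equivMvPolynomial b).injective
  rw [map_zero]
  refine MvPolynomial.funext fun v => ?_
  rw [map_zero]
  have h1 : (MvPolynomial.aeval v).comp (SymmetricAlgebra.equivMvPolynomial b).toAlgHom =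
      SymmetricAlgebra.lift (b.constr 𝕜 v) := by
    refine SymmetricAlgebra.algHom_ext (b.ext fun i => ?_)
    show MvPolynomial.aeval v (SymmetricAlgebra.equivMvPolynomial b
      (SymmetricAlgebra.ι 𝕜 L (b i))) = SymmetricAlgebra.lift (b.constr 𝕜 v)
        (SymmetricAlgebra.ι 𝕜 L (b i))
    rw [SymmetricAlgebra.equivMvPolynomial_ι_apply, SymmetricAlgebra.lift_ι_apply,
      Module.Basis.constr_basis, MvPolynomial.aeval_X]
  have h2 := congrArg (fun F : Sy 𝕜 L →ₐ[𝕜] 𝕜 => F a) h1
  rw [h] at h2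
  exact h2

/-- injectivity of the symbol for a Lie algebra with injective adjoint representation -/
theorem IsSymbol.eq_zero_of_low [CharZero 𝕜]
    (had : Function.Injective (LieAlgebra.ad 𝕜 L)) {n : ℕ} {a : Sy 𝕜 L} {u : Ue 𝕜 L}
    (h : IsSymbol n a u) (hu : u ∈ lowU 𝕜 L n) : a = 0 := by
  obtain ⟨t, ht, h1, h2⟩ := h
  have h3 : pU t ∈ lowU 𝕜 L n := by
    have h4 := sub_mem hu h2
    rwa [sub_sub_cancel] at h4
  rw [← h1]
  refine eq_zero_of_eval fun φ => ?_
  let bM := Module.Basis.ofVectorSpace 𝕜 (DE 𝕜 L)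
  obtain ⟨r, hr⟩ := LinearMap.exists_leftInverse_of_injective
    (LieAlgebra.ad 𝕜 L : L →ₗ[𝕜] Module.End 𝕜 L) (LinearMap.ker_eq_bot.2 had)
  have hr' : ∀ x, r (LieAlgebra.ad 𝕜 L x) = x := fun x =>
    congrArg (fun F : L →ₗ[𝕜] L => F x) hr
  set m : DE 𝕜 L := φ ∘ₗ r with hm
  set f : MvPolynomial _ 𝕜 := lf bM m - C (m 1) with hf
  have hf0 : evI bM f = 0 := by
    rw [hf, map_sub, evI_lf, evI, MvPolynomial.aeval_C]
    exact sub_self _
  have hφ : ∀ x, evI bM (vf bM x f) = φ x := by
    intro x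
    rw [hf, map_sub, vf_lf, ← MvPolynomial.algebraMap_eq, Derivation.map_algebraMap, sub_zero,
      evI_lf, actE_apply, one_mul, hm, LinearMap.comp_apply, hr']
  have h5 := top_eval bM hf0 φ hφ ht 1
  cases n with
  | zero =>
    rw [lowU_zero, Submodule.mem_bot] at h3
    rw [h3, map_zero, LinearMap.zero_apply, map_zero, map_one, mul_one, Nat.factorial_zero,
      Nat.cast_one, one_mul] at h5
    exact h5.symm
  | succ k =>
    rw [low_vanish bM hf0 h3 (Nat.lt_succ_self k), map_one, mul_one] at h5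
    have h6 : ((k + 1).factorial : 𝕜) ≠ 0 := Nat.cast_ne_zero.2 (Nat.factorial_ne_zero _)
    exact (mul_eq_zero.1 h5.symm).resolve_left h6

end Pool.Agent.helper5.AS
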