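import Mathlib
import Pool.Agent.helper5.AS.Filt

/-!
# Products in the enveloping algebra up to lower order
-/

set_option autoImplicit false

namespace Pool.Agent.helper5.AS

variable {𝕜 : Type*} [Field 𝕜] {L : Type*} [LieRing L] [LieAlgebra 𝕜 L]

theorem prodU_mem (l : List L) : (l.map (ιU 𝕜 L)).prod ∈ lowU 𝕜 L (l.length + 1) := by
  induction l with
  | nil =>
    rw [List.map_nil, List.prod_nil]
    exact one_mem_lowU
  | cons x l ih =>
    rw [List.map_cons, List.prod_cons, List.length_cons]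
    have h := mul_mem_lowU (m := 1) (ιU_mem (𝕜 := 𝕜) x) ih
    have h2 : 1 + (l.length + 1) = l.length + 1 + 1 := by omega
    rwa [h2] at h

theorem perm_low {l₁ l₂ : List L} (h : l₁.Perm l₂) :
    (l₁.map (ιU 𝕜 L)).prod - (l₂.map (ιU 𝕜 L)).prod ∈ lowU 𝕜 L l₁.length := by
  induction h with
  | nil =>
    rw [sub_self]
    exact zero_mem _
  | cons x h ih =>
    rw [List.map_cons, List.prod_cons, List.map_cons, List.prod_cons, List.length_cons,
      ← mul_sub, add_comm]
    exact mul_mem_lowU (m := 1) (ιU_mem (𝕜 := 𝕜) x) ih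
  | swap x y l =>
    simp only [List.map_cons, List.prod_cons, List.length_cons]
    rw [← mul_assoc, ← mul_assoc, ← sub_mul, ιU_comm]
    have h := mul_mem_lowU (m := 1) (ιU_mem (𝕜 := 𝕜) ⁅y, x⁆) (prodU_mem (𝕜 := 𝕜) l)
    have h2 : 1 + (l.length + 1) = l.length + 1 + 1 := by omega
    rwa [h2] at h
  | trans h₁ h₂ ih₁ ih₂ =>
    rw [← sub_add_sub_cancel]
    refine add_mem ih₁ ?_
    rw [h₁.length_eq]
    exact ih₂

variable {I : Type*} [LinearOrder I] (b : Module.Basis I 𝕜 L)

/-- the linear map `S(L) → U(L)` which sends a monomial in the basis to the ordered product -/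
noncomputable def srt : Sy 𝕜 L →ₗ[𝕜] Ue 𝕜 L :=
  b.symmetricAlgebra.constr 𝕜 fun m =>
    (((Finsupp.toMultiset m).sort (· ≤ ·)).map fun i => ιU 𝕜 L (b i)).prod

theorem prodS_eq (l : List I) : (l.map fun i => SymmetricAlgebra.ι 𝕜 L (b i)).prod =
    b.symmetricAlgebra (Multiset.toFinsupp (l : Multiset I)) := by
  have h : SymmetricAlgebra.equivMvPolynomial b
      (l.map fun i => SymmetricAlgebra.ι 𝕜 L (b i)).prod =
      MvPolynomial.monomial (Multiset.toFinsupp (l : Multiset I)) (1 : 𝕜) := by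
    rw [map_list_prod, List.map_map]
    induction l with
    | nil => simp
    | cons i l ih =>
      rw [List.map_cons, List.prod_cons, ih, Function.comp_apply,
        SymmetricAlgebra.equivMvPolynomial_ι_apply, MvPolynomial.X, MvPolynomial.monomial_mul,
        one_mul, ← Multiset.cons_coe, ← Multiset.singleton_add, map_add,
        Multiset.toFinsupp_singleton]
  rw [Module.Basis.symmetricAlgebra, Module.Basis.map_apply, MvPolynomial.coe_basisMonomials]
  show _ = (SymmetricAlgebra.equivMvPolynomial b).symm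
    (MvPolynomial.monomial (Multiset.toFinsupp (l : Multiset I)) (1 : 𝕜))
  rw [← h]
  exact ((SymmetricAlgebra.equivMvPolynomial b).symm_apply_apply _).symm

theorem srt_prod (l : List I) : ∃ l' : List I, l'.Perm l ∧
    srt b (l.map fun i => SymmetricAlgebra.ι 𝕜 L (b i)).prod =
      (l'.map fun i => ιU 𝕜 L (b i)).prod := by
  refine ⟨(Multiset.sort (l : Multiset I) (· ≤ ·)), ?_, ?_⟩
  · rw [← Multiset.coe_eq_coe, Multiset.sort_eq]
  · rw [prodS_eq, srt, Module.Basis.constr_basis, Multiset.toFinsupp_toMultiset]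

omit [LinearOrder I] in
theorem imT_eq : imT 𝕜 L = Submodule.span 𝕜 (Set.range fun i => TensorAlgebra.ι 𝕜 (b i)) := by
  rw [imT, LinearMap.range_eq_map, ← b.span_eq, Submodule.map_span, ← Set.range_comp]
  rfl

/-- elements of `T^n`: the images in `S(L)` and in `U(L)` -/
theorem srt_tensor {n : ℕ} {t : TensorAlgebra 𝕜 L} (ht : t ∈ imT 𝕜 L ^ n) :
    pU t - srt b (pS t) ∈ lowU 𝕜 L n := by
  rw [imT_eq b, Submodule.span_pow] at ht
  induction ht using Submodule.span_induction with
  | mem t ht =>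
    obtain ⟨f, hf⟩ := Set.mem_pow.1 ht
    have h1 : ∀ i, ∃ j, TensorAlgebra.ι 𝕜 (b j) = (f i : TensorAlgebra 𝕜 L) := fun i => (f i).2
    choose j hj using h1
    have h2 : t = ((List.ofFn j).map fun i => TensorAlgebra.ι 𝕜 (b i)).prod := by
      rw [← hf, List.map_ofFn]
      congr 2
      funext i
      exact (hj i).symm
    have h3 : pU t = ((List.ofFn j).map fun i => ιU 𝕜 L (b i)).prod := by
      rw [h2, map_list_prod, List.map_map]
      rfl
    have h4 : pS t = ((List.ofFn j).map fun i => SymmetricAlgebra.ι 𝕜 L (b i)).prod := by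
      rw [h2, map_list_prod, List.map_map]
      rfl
    obtain ⟨l', hl', h5⟩ := srt_prod b (List.ofFn j)
    rw [h3, h4, h5]
    have h6 := perm_low (𝕜 := 𝕜) ((hl'.symm).map b)
    rw [List.length_map, List.length_ofFn, List.map_map, List.map_map] at h6
    exact h6
  | zero =>
    rw [map_zero, map_zero, map_zero, sub_zero]
    exact zero_mem _
  | add x y _ _ hx hy =>
    rw [map_add, map_add, map_add, add_sub_add_comm]
    exact add_mem hx hy
  | smul c x _ hx =>
    rw [map_smul, map_smul, map_smul, ← smul_sub]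
    exact Submodule.smul_mem _ c hx

/-- an element of `U_n` with symbol `0` lies in `U_{n-1}` -/
theorem IsSymbol.low_of_zero {n : ℕ} {u : Ue 𝕜 L} (h : IsSymbol n (0 : Sy 𝕜 L) u) :
    u ∈ lowU 𝕜 L n := by
  classical
  obtain ⟨t, ht, h1, h2⟩ := h
  let b := Module.Basis.ofVectorSpace 𝕜 L
  let _ : LinearOrder (Module.Basis.ofVectorSpaceIndex 𝕜 L) := linearOrderOfSTO WellOrderingRel
  have h3 := srt_tensor b ht
  rw [h1, map_zero, sub_zero] at h3
  have h4 := add_mem h2 h3
  rwa [sub_add_cancel] at h4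

end Pool.Agent.helper5.AS
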