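import Mathlib
import Pool.Agent.helper5.AS.Filt

/-!
# Derivations and homogeneous components of the symmetric algebra
-/

set_option autoImplicit false

namespace Pool.Agent.helper5.AS

open Polynomial

variable {𝕜 : Type*} [Field 𝕜] {L : Type*} [LieRing L] [LieAlgebra 𝕜 L]

/-- the canonical map -/
noncomputable abbrev ιS (𝕜 : Type*) [Field 𝕜] (L : Type*) [LieRing L] [LieAlgebra 𝕜 L] :
    L →ₗ[𝕜] Sy 𝕜 L := SymmetricAlgebra.ι 𝕜 L

theorem expand_ι (φ : L →ₗ[𝕜] Sy 𝕜 L) (y : L) :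
    expand φ (ιS 𝕜 L y) = C (ιS 𝕜 L y) + C (φ y) * X := by
  rw [expand, SymmetricAlgebra.lift_ι_apply]
  rfl

theorem expand_coeff_zero (φ : L →ₗ[𝕜] Sy 𝕜 L) (F : Sy 𝕜 L) : (expand φ F).coeff 0 = F := by
  induction F using SymmetricAlgebra.induction with
  | algebraMap r =>
    rw [AlgHom.commutes, Polynomial.algebraMap_apply, coeff_C_zero]
  | ι x =>
    rw [expand_ι]
    simp
  | mul a b ha hb => rw [map_mul, mul_coeff_zero, ha, hb]
  | add a b ha hb => rw [map_add, coeff_add, ha, hb]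

/-- `der φ` as a derivation -/
noncomputable def derD (φ : L →ₗ[𝕜] Sy 𝕜 L) : Derivation 𝕜 (Sy 𝕜 L) (Sy 𝕜 L) where
  toFun := der φ
  map_add' := fun a b => by
    rw [der, map_add, coeff_add]
    rfl
  map_smul' := fun c a => by
    rw [der, map_smul, coeff_smul]
    rfl
  map_one_eq_zero' := by
    show (expand φ 1).coeff 1 = 0
    rw [map_one, coeff_one]
    rfl
  leibniz' := fun a b => by
    show (expand φ (a * b)).coeff 1 = a • (expand φ b).coeff 1 + b • (expand φ a).coeff 1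
    rw [map_mul, mul_coeff_one, expand_coeff_zero, expand_coeff_zero, smul_eq_mul, smul_eq_mul]
    ring

theorem derD_apply (φ : L →ₗ[𝕜] Sy 𝕜 L) (F : Sy 𝕜 L) : derD φ F = der φ F := rfl

theorem derD_ι (φ : L →ₗ[𝕜] Sy 𝕜 L) (y : L) : derD φ (ιS 𝕜 L y) = φ y := by
  rw [derD_apply, der, expand_ι]
  simp

/-- derivations which agree on `L` are equal -/
theorem der_ext {D D' : Derivation 𝕜 (Sy 𝕜 L) (Sy 𝕜 L)}
    (h : ∀ y, D (ιS 𝕜 L y) = D' (ιS 𝕜 L y)) : D = D' := by
  ext F
  induction F using SymmetricAlgebra.induction with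
  | algebraMap r => rw [Derivation.map_algebraMap, Derivation.map_algebraMap]
  | ι x => exact h x
  | mul a b ha hb => rw [Derivation.leibniz, Derivation.leibniz, ha, hb]
  | add a b ha hb => rw [map_add, map_add, ha, hb]

theorem derD_add (φ ψ : L →ₗ[𝕜] Sy 𝕜 L) : derD (φ + ψ) = derD φ + derD ψ :=
  der_ext fun y => by rw [Derivation.add_apply, derD_ι, derD_ι, derD_ι]; rfl

theorem derD_smul (c : 𝕜) (φ : L →ₗ[𝕜] Sy 𝕜 L) : derD (c • φ) = c • derD φ :=
  der_ext fun y => by rw [Derivation.smul_apply, derD_ι, derD_ι]; rfl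

theorem derD_neg (φ : L →ₗ[𝕜] Sy 𝕜 L) : derD (-φ) = -derD φ :=
  der_ext fun y => by rw [Derivation.neg_apply, derD_ι, derD_ι]; rfl

/-! ## homogeneous components -/

/-- the homomorphism `F(x) ↦ F(s x)` -/
noncomputable def scal : Sy 𝕜 L →ₐ[𝕜] (Sy 𝕜 L)[X] :=
  SymmetricAlgebra.lift
    { toFun := fun y => C (ιS 𝕜 L y) * X
      map_add' := fun a b => by simp only [map_add]; ring
      map_smul' := fun c a => by
        simp only [map_smul, RingHom.id_apply, ← Polynomial.smul_C]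
        rw [smul_mul_assoc] }

theorem scal_ι (y : L) : scal (𝕜 := 𝕜) (ιS 𝕜 L y) = C (ιS 𝕜 L y) * X := by
  rw [scal, SymmetricAlgebra.lift_ι_apply]
  rfl

/-- the homogeneous component of degree `n` -/
noncomputable def comp (n : ℕ) : Sy 𝕜 L →ₗ[𝕜] Sy 𝕜 L where
  toFun := fun F => (scal F).coeff n
  map_add' := fun a b => by rw [map_add, coeff_add]
  map_smul' := fun c a => by rw [map_smul, coeff_smul]; rfl

theorem comp_apply (n : ℕ) (F : Sy 𝕜 L) : comp n F = (scal F).coeff n := rfl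

theorem scal_of_mem {n : ℕ} {F : Sy 𝕜 L} (hF : F ∈ imS 𝕜 L ^ n) : scal F = C F * X ^ n := by
  induction n generalizing F with
  | zero =>
    rw [pow_zero] at hF
    obtain ⟨c, rfl⟩ := Submodule.mem_one.1 hF
    rw [AlgHom.commutes, pow_zero, mul_one]
    rfl
  | succ n ih =>
    rw [pow_succ] at hF
    refine Submodule.mul_induction_on hF ?_ ?_
    · rintro a ha _ ⟨x, rfl⟩
      rw [map_mul, ih ha, scal_ι, map_mul, pow_succ]
      ring
    · intro a b ha hb
      rw [map_add, ha, hb, map_add]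
      ring

theorem comp_of_mem {n : ℕ} {F : Sy 𝕜 L} (hF : F ∈ imS 𝕜 L ^ n) (m : ℕ) :
    comp m F = if m = n then F else 0 := by
  rw [comp_apply, scal_of_mem hF, coeff_C_mul, coeff_X_pow, mul_ite, mul_one, mul_zero]

theorem comp_mem (n : ℕ) (F : Sy 𝕜 L) : comp n F ∈ imS 𝕜 L ^ n := by
  induction F using SymmetricAlgebra.induction generalizing n with
  | algebraMap r =>
    have h : algebraMap 𝕜 (Sy 𝕜 L) r ∈ imS 𝕜 L ^ 0 := by
      rw [pow_zero]
      exact Submodule.mem_one.2 ⟨r, rfl⟩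
    rw [comp_of_mem h]
    split_ifs with h1
    · rw [h1]
      exact h
    · exact zero_mem _
  | ι x =>
    have h : ιS 𝕜 L x ∈ imS 𝕜 L ^ 1 := by
      rw [pow_one]
      exact ⟨x, rfl⟩
    rw [comp_of_mem h]
    split_ifs with h1
    · rw [h1]
      exact h
    · exact zero_mem _
  | mul a b ha hb =>
    rw [comp_apply, map_mul, coeff_mul]
    refine sum_mem fun p hp => ?_
    rw [Finset.HasAntidiagonal.mem_antidiagonal] at hp
    rw [← hp, pow_add]
    exact Submodule.mul_mem_mul (ha p.1) (hb p.2)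
  | add a b ha hb =>
    rw [map_add]
    exact add_mem (ha n) (hb n)

theorem eval_scal (F : Sy 𝕜 L) : (scal F).eval 1 = F := by
  induction F using SymmetricAlgebra.induction with
  | algebraMap r =>
    rw [AlgHom.commutes, Polynomial.algebraMap_apply, eval_C]
  | ι x =>
    rw [scal_ι]
    simp
  | mul a b ha hb => rw [map_mul, eval_mul, ha, hb]
  | add a b ha hb => rw [map_add, eval_add, ha, hb]

theorem sum_comp (F : Sy 𝕜 L) : ∑ n ∈ Finset.range ((scal F).natDegree + 1), comp n F = F := by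
  have h := eval_scal F
  rw [eval_eq_sum_range] at h
  simp only [one_pow, mul_one] at h
  exact h

end Pool.Agent.helper5.AS
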