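import Mathlib
import Pool.Agent.helper5.AS.Sorted
import Pool.Agent.helper5.AS.Inj
import Pool.Agent.helper5.AS.Sym

/-!
# Graded subalgebras of `S(L) × U(L)`
-/

set_option autoImplicit false

namespace Pool.Agent.helper5.AS

variable {𝕜 : Type*} [Field 𝕜] {L : Type*} [LieRing L] [LieAlgebra 𝕜 L]

/-- the product algebra `S(L) × U(L)` -/
abbrev W (𝕜 : Type*) [Field 𝕜] (L : Type*) [LieRing L] [LieAlgebra 𝕜 L] : Type _ :=
  Sy 𝕜 L × Ue 𝕜 L

/-- the pairs `(a, u)` where `u` is in `U_n` and `a` is its symbol -/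
noncomputable def Hm (𝕜 : Type*) [Field 𝕜] (L : Type*) [LieRing L] [LieAlgebra 𝕜 L] (n : ℕ) :
    Submodule 𝕜 (W 𝕜 L) where
  carrier := {w | IsSymbol n w.1 w.2}
  add_mem' := fun ha hb => ha.add hb
  zero_mem' := IsSymbol.of_low (zero_mem _)
  smul_mem' := fun c _ ha => ha.smul c

theorem mem_Hm {n : ℕ} {w : W 𝕜 L} : w ∈ Hm 𝕜 L n ↔ IsSymbol n w.1 w.2 := Iff.rfl

/-- the part of `X` which is a sum of homogeneous elements of `X` -/
noncomputable def grd (X : Submodule 𝕜 (W 𝕜 L)) : Submodule 𝕜 (W 𝕜 L) := ⨆ n, X ⊓ Hm 𝕜 L n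

theorem mem_grd_of {X : Submodule 𝕜 (W 𝕜 L)} {n : ℕ} {w : W 𝕜 L} (h : w ∈ X)
    (h' : w ∈ Hm 𝕜 L n) : w ∈ grd X :=
  Submodule.mem_iSup_of_mem n ⟨h, h'⟩

theorem grd_mono {X Y : Submodule 𝕜 (W 𝕜 L)} (h : X ≤ Y) : grd X ≤ grd Y :=
  iSup_mono fun _ => inf_le_inf_right _ h

theorem grd_mul {X Y : Submodule 𝕜 (W 𝕜 L)} : grd X * grd Y ≤ grd (X * Y) := by
  rw [grd, grd, Submodule.iSup_mul]
  refine iSup_le fun m => ?_
  rw [Submodule.mul_iSup]
  refine iSup_le fun n => ?_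
  rw [Submodule.mul_le]
  rintro a ⟨ha, ha'⟩ b ⟨hb, hb'⟩
  refine mem_grd_of (n := m + n) (Submodule.mul_mem_mul ha hb) ?_
  exact IsSymbol.mul ha' hb'

theorem exists_sum_of_grd {X : Submodule 𝕜 (W 𝕜 L)} {w : W 𝕜 L} (hw : w ∈ grd X) :
    ∃ f : ℕ →₀ W 𝕜 L, (∀ n, f n ∈ X ∧ f n ∈ Hm 𝕜 L n) ∧ (f.sum fun _ x => x) = w := by
  obtain ⟨f, hf, hs⟩ := (Submodule.mem_iSup_iff_exists_finsupp _ _).1 hw
  exact ⟨f, fun n => ⟨(hf n).1, (hf n).2⟩, hs⟩

/-- a subalgebra generated by graded elements is graded -/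
theorem adjoin_grd {s : Set (W 𝕜 L)}
    (hs : ∀ w ∈ s, w ∈ grd (Subalgebra.toSubmodule (Algebra.adjoin 𝕜 s))) :
    Subalgebra.toSubmodule (Algebra.adjoin 𝕜 s) ≤
      grd (Subalgebra.toSubmodule (Algebra.adjoin 𝕜 s)) := by
  intro w hw
  rw [Subalgebra.mem_toSubmodule] at hw
  induction hw using Algebra.adjoin_induction with
  | mem x hx => exact hs x hx
  | algebraMap r =>
    refine mem_grd_of (n := 0) ?_ ?_
    · rw [Subalgebra.mem_toSubmodule]
      exact Subalgebra.algebraMap_mem _ r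
    · rw [mem_Hm, Algebra.algebraMap_eq_smul_one]
      exact isSymbol_one.smul r
  | add x y _ _ hx hy => exact add_mem hx hy
  | mul x y _ _ hx hy =>
    have h := grd_mul (Submodule.mul_mem_mul hx hy)
    rwa [(Subalgebra.isIdempotentElem_toSubmodule (Algebra.adjoin 𝕜 s)).eq] at h

/-- the leading part of an element of a graded single-valued subspace -/
theorem lead {X : Submodule 𝕜 (W 𝕜 L)} (hX : X ≤ grd X) (hsv : ∀ w ∈ X, w.1 = 0 → w = 0)
    {w : W 𝕜 L} (hw : w ∈ X) (hw0 : w ≠ 0) :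
    ∃ M, ∃ w' ∈ X, w'.1 ≠ 0 ∧ IsSymbol M w'.1 w.2 := by
  classical
  obtain ⟨f, hf, hs⟩ := exists_sum_of_grd (hX hw)
  have hne : f.support.Nonempty := by
    rw [Finset.nonempty_iff_ne_empty]
    intro h
    rw [Finsupp.support_eq_empty] at h
    rw [h, Finsupp.sum_zero_index] at hs
    exact hw0 hs.symm
  set M := f.support.max' hne with hM
  have hMs : M ∈ f.support := Finset.max'_mem _ _
  refine ⟨M, f M, (hf M).1, ?_, ?_⟩
  · intro h
    exact (Finsupp.mem_support_iff.1 hMs) (hsv _ (hf M).1 h)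
  · have h1 : w.2 = (f M).2 + ∑ n ∈ f.support.erase M, (f n).2 := by
      rw [← hs, Finsupp.sum, Prod.snd_sum, ← Finset.add_sum_erase _ _ hMs]
    rw [h1]
    have h2 : (f M).1 = (f M).1 + 0 := (add_zero _).symm
    rw [h2]
    refine IsSymbol.add (hf M).2 (IsSymbol.of_low (sum_mem fun n hn => ?_))
    have h3 : n ≤ M := Finset.le_max' _ _ (Finset.mem_of_mem_erase hn)
    have h4 : n ≠ M := Finset.ne_of_mem_erase hn
    exact lowU_mono (by omega) (IsSymbol.mem_low (hf n).2)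

section

variable [CharZero 𝕜]

/-- the criterion for lifting -/
theorem lifts_of_graph (had : Function.Injective (LieAlgebra.ad 𝕜 L))
    (X : Subalgebra 𝕜 (W 𝕜 L))
    (hX : Subalgebra.toSubmodule X ≤ grd (Subalgebra.toSubmodule X))
    (hsv : ∀ w ∈ X, w.1 = 0 → w = 0)
    (hcomm : ∀ w ∈ X, ∀ w' ∈ X, w.2 * w'.2 = w'.2 * w.2)
    (A : Subalgebra 𝕜 (Sy 𝕜 L)) (hA : ∀ a, a ∈ A ↔ ∃ w ∈ X, w.1 = a) : Lifts A := by
  refine ⟨X.map (AlgHom.snd 𝕜 (Sy 𝕜 L) (Ue 𝕜 L)), ?_, ?_⟩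
  · rintro _ ⟨w, hw, rfl⟩ _ ⟨w', hw', rfl⟩
    exact hcomm w hw w' hw'
  · apply le_antisymm
    · rw [grSub, Submodule.span_le]
      rintro a ⟨n, u, ⟨w, hw, rfl⟩, hsym⟩
      show a ∈ A
      have hsym' : IsSymbol n a w.2 := hsym
      by_cases hw0 : w = 0
      · have h1 : a = 0 := by
          refine hsym'.eq_zero_of_low had ?_
          rw [hw0]
          exact zero_mem _
        rw [h1]
        exact zero_mem _
      · obtain ⟨M, w', hw', h1, h2⟩ := lead hX (fun w hw => hsv w hw) hw hw0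
        rcases lt_trichotomy M n with h | h | h
        · have h3 : a = 0 := hsym'.eq_zero_of_low had (lowU_mono h h2.mem_low)
          rw [h3]
          exact zero_mem _
        · have h3 : a - w'.1 = 0 := by
            have h4 : IsSymbol n (a + (-1 : 𝕜) • w'.1) (w.2 + (-1 : 𝕜) • w.2) := by
              refine hsym'.add (IsSymbol.smul _ ?_)
              rw [← h]
              exact h2
            have h5 := h4.eq_zero_of_low had (by
              rw [neg_one_smul, add_neg_cancel]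
              exact zero_mem _)
            rwa [neg_one_smul, ← sub_eq_add_neg] at h5
          rw [sub_eq_zero.1 h3]
          exact (hA _).2 ⟨w', hw', rfl⟩
        · exact absurd (h2.eq_zero_of_low had (lowU_mono h hsym'.mem_low)) h1
    · intro a ha
      obtain ⟨w, hw, rfl⟩ := (hA a).1 ha
      obtain ⟨f, hf, hs⟩ := exists_sum_of_grd (hX hw)
      rw [← hs, Finsupp.sum, Prod.fst_sum]
      refine sum_mem fun n _ => ?_
      exact Submodule.subset_span ⟨n, (f n).2, ⟨f n, (hf n).1, rfl⟩, (hf n).2⟩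

/-- torsion-freeness of `U(L)` -/
theorem torsion_free (had : Function.Injective (LieAlgebra.ad 𝕜 L))
    {X : Submodule 𝕜 (W 𝕜 L)} (hX : X ≤ grd X) (hsv : ∀ w ∈ X, w.1 = 0 → w = 0)
    {w : W 𝕜 L} (hw : w ∈ X) (hw0 : w ≠ 0) {u : Ue 𝕜 L} (hu : w.2 * u = 0) : u = 0 := by
  classical
  by_contra hne
  obtain ⟨M, w', _, h1, h2⟩ := lead hX hsv hw hw0
  have hex : ∃ n, u ∈ lowU 𝕜 L n := exists_mem_lowU u
  set N := Nat.find hex with hN
  have hN1 : u ∈ lowU 𝕜 L N := Nat.find_spec hex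
  cases hk : N with
  | zero =>
    rw [hk, lowU_zero, Submodule.mem_bot] at hN1
    exact hne hN1
  | succ k =>
    rw [hk] at hN1
    obtain ⟨b, hb⟩ := exists_symbol hN1
    have hb0 : b ≠ 0 := by
      intro h
      rw [h] at hb
      exact Nat.find_min hex (m := k) (by omega) hb.low_of_zero
    have h3 := h2.mul hb
    rw [hu] at h3
    have h4 := h3.eq_zero_of_low had (zero_mem _)
    rcases mul_eq_zero.1 h4 with h5 | h5
    · exact h1 h5
    · exact hb0 h5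

end

end Pool.Agent.helper5.AS
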