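import Mathlib
import Pool.Agent.helper5.AS.Sym

/-!
# Poisson brackets and the argument shift
-/

set_option autoImplicit false

namespace Pool.Agent.helper5.AS

open Polynomial

variable {𝕜 : Type*} [Field 𝕜] {L : Type*} [LieRing L] [LieAlgebra 𝕜 L]

/-- the inner derivation of a bilinear structure -/
noncomputable def innD (β : L →ₗ[𝕜] L →ₗ[𝕜] Sy 𝕜 L) (y : L) :
    Derivation 𝕜 (Sy 𝕜 L) (Sy 𝕜 L) := derD (β.flip y)

theorem innD_ι (β : L →ₗ[𝕜] L →ₗ[𝕜] Sy 𝕜 L) (x y : L) : innD β y (ιS 𝕜 L x) = β x y := by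
  rw [innD, derD_ι, LinearMap.flip_apply]

/-- the map `y ↦ {F, y}` -/
noncomputable def innL (β : L →ₗ[𝕜] L →ₗ[𝕜] Sy 𝕜 L) (F : Sy 𝕜 L) : L →ₗ[𝕜] Sy 𝕜 L where
  toFun := fun y => innD β y F
  map_add' := fun y z => by
    rw [innD, map_add, derD_add, Derivation.add_apply]
    rfl
  map_smul' := fun c y => by
    rw [innD, map_smul, derD_smul, Derivation.smul_apply]
    rfl

theorem innL_apply (β : L →ₗ[𝕜] L →ₗ[𝕜] Sy 𝕜 L) (F : Sy 𝕜 L) (y : L) :
    innL β F y = innD β y F := rfl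

/-- the biderivation defined by a bilinear map `β` -/
noncomputable def pb (β : L →ₗ[𝕜] L →ₗ[𝕜] Sy 𝕜 L) (F : Sy 𝕜 L) :
    Derivation 𝕜 (Sy 𝕜 L) (Sy 𝕜 L) := derD (innL β F)

variable (β : L →ₗ[𝕜] L →ₗ[𝕜] Sy 𝕜 L)

theorem pb_ι_right (F : Sy 𝕜 L) (y : L) : pb β F (ιS 𝕜 L y) = innD β y F := by
  rw [pb, derD_ι, innL_apply]

theorem pb_ι_ι (x y : L) : pb β (ιS 𝕜 L x) (ιS 𝕜 L y) = β x y := by
  rw [pb_ι_right, innD_ι]

theorem pb_add_left (F F' : Sy 𝕜 L) : pb β (F + F') = pb β F + pb β F' :=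
  der_ext fun y => by
    rw [Derivation.add_apply, pb_ι_right, pb_ι_right, pb_ι_right, map_add]

theorem pb_smul_left (c : 𝕜) (F : Sy 𝕜 L) : pb β (c • F) = c • pb β F :=
  der_ext fun y => by
    rw [Derivation.smul_apply, pb_ι_right, pb_ι_right]
    exact (innD β y).map_smul c F

theorem pb_mul_left (F F' : Sy 𝕜 L) : pb β (F * F') = F • pb β F' + F' • pb β F :=
  der_ext fun y => by
    rw [Derivation.add_apply, Derivation.smul_apply, Derivation.smul_apply, pb_ι_right,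
      pb_ι_right, pb_ι_right, Derivation.leibniz]

theorem pb_algebraMap_left (c : 𝕜) : pb β (algebraMap 𝕜 (Sy 𝕜 L) c) = 0 :=
  der_ext fun y => by
    rw [pb_ι_right, Derivation.map_algebraMap]
    rfl

/-- the bracket as a linear map in the first argument -/
noncomputable def pbL (G : Sy 𝕜 L) : Sy 𝕜 L →ₗ[𝕜] Sy 𝕜 L where
  toFun := fun F => pb β F G
  map_add' := fun F F' => by rw [pb_add_left]; rfl
  map_smul' := fun c F => by rw [pb_smul_left]; rfl

theorem pbL_apply (F G : Sy 𝕜 L) : pbL β G F = pb β F G := rfl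

/-- the bracket as a linear map in the second argument -/
noncomputable def pbR (F : Sy 𝕜 L) : Sy 𝕜 L →ₗ[𝕜] Sy 𝕜 L where
  toFun := fun G => pb β F G
  map_add' := fun G G' => (pb β F).map_add G G'
  map_smul' := fun c G => (pb β F).map_smul c G

theorem pbR_apply (F G : Sy 𝕜 L) : pbR β F G = pb β F G := rfl

/-- induction on the first argument -/
theorem pb_left_zero {G : Sy 𝕜 L} (h : ∀ x, pb β (ιS 𝕜 L x) G = 0) (F : Sy 𝕜 L) :
    pb β F G = 0 := by
  induction F using SymmetricAlgebra.induction with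
  | algebraMap r =>
    rw [pb_algebraMap_left]
    rfl
  | ι x => exact h x
  | mul a b ha hb =>
    rw [pb_mul_left, Derivation.add_apply, Derivation.smul_apply, Derivation.smul_apply, ha, hb,
      smul_zero, smul_zero, add_zero]
  | add a b ha hb => rw [pb_add_left, Derivation.add_apply, ha, hb, add_zero]

/-- induction on the second argument -/
theorem pb_right_zero {F : Sy 𝕜 L} (h : ∀ y, pb β F (ιS 𝕜 L y) = 0) (G : Sy 𝕜 L) :
    pb β F G = 0 := by
  have h1 : pb β F = 0 := der_ext fun y => by rw [h y]; rfl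
  rw [h1]
  rfl

theorem pb_skew (hβ : ∀ x y, β x y = - β y x) (F G : Sy 𝕜 L) : pb β F G = - pb β G F := by
  have h1 : ∀ x G, pb β (ιS 𝕜 L x) G = - pb β G (ιS 𝕜 L x) := by
    intro x G
    have h2 : pb β (ιS 𝕜 L x) = - innD β x := der_ext fun y => by
      rw [pb_ι_ι, Derivation.neg_apply, innD_ι, hβ]
    rw [h2, pb_ι_right]
    rfl
  induction F using SymmetricAlgebra.induction with
  | algebraMap r =>
    rw [pb_algebraMap_left, Derivation.map_algebraMap, neg_zero]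
    rfl
  | ι x => exact h1 x G
  | mul a b ha hb =>
    rw [pb_mul_left, Derivation.add_apply, Derivation.smul_apply, Derivation.smul_apply, ha, hb,
      Derivation.leibniz, smul_neg, smul_neg, neg_add]
  | add a b ha hb =>
    rw [pb_add_left, Derivation.add_apply, ha, hb, map_add, neg_add]

theorem pb_add (γ : L →ₗ[𝕜] L →ₗ[𝕜] Sy 𝕜 L) (F G : Sy 𝕜 L) :
    pb (β + γ) F G = pb β F G + pb γ F G := by
  have h1 : ∀ y, innD (β + γ) y = innD β y + innD γ y := fun y =>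
    der_ext fun x => by
      rw [Derivation.add_apply, innD_ι, innD_ι, innD_ι]
      rfl
  have h2 : pb (β + γ) F = pb β F + pb γ F := der_ext fun y => by
    rw [Derivation.add_apply, pb_ι_right, pb_ι_right, pb_ι_right, h1, Derivation.add_apply]
  rw [h2, Derivation.add_apply]

theorem pb_smul (c : 𝕜) (F G : Sy 𝕜 L) : pb (c • β) F G = c • pb β F G := by
  have h1 : ∀ y, innD (c • β) y = c • innD β y := fun y =>
    der_ext fun x => by
      rw [Derivation.smul_apply, innD_ι, innD_ι]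
      rfl
  have h2 : pb (c • β) F = c • pb β F := der_ext fun y => by
    rw [Derivation.smul_apply, pb_ι_right, pb_ι_right, h1, Derivation.smul_apply]
  rw [h2, Derivation.smul_apply]

/-- compatibility with algebra homomorphisms -/
theorem pb_map (τ : Sy 𝕜 L →ₐ[𝕜] Sy 𝕜 L) {γ : L →ₗ[𝕜] L →ₗ[𝕜] Sy 𝕜 L}
    (hτ : ∀ x y, τ (β x y) = pb γ (τ (ιS 𝕜 L x)) (τ (ιS 𝕜 L y))) (F G : Sy 𝕜 L) :
    τ (pb β F G) = pb γ (τ F) (τ G) := by
  induction G using SymmetricAlgebra.induction with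
  | algebraMap r =>
    rw [Derivation.map_algebraMap, map_zero, AlgHom.commutes, Derivation.map_algebraMap]
  | ι y =>
    induction F using SymmetricAlgebra.induction with
    | algebraMap r =>
      rw [pb_algebraMap_left, AlgHom.commutes, pb_algebraMap_left]
      exact map_zero τ
    | ι x =>
      have h := hτ x y
      rw [← pb_ι_ι] at h
      exact h
    | mul a b ha hb =>
      rw [pb_mul_left, Derivation.add_apply, Derivation.smul_apply, Derivation.smul_apply,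
        map_add, smul_eq_mul, smul_eq_mul, map_mul, map_mul, ha, hb, map_mul, pb_mul_left,
        Derivation.add_apply, Derivation.smul_apply, Derivation.smul_apply, smul_eq_mul,
        smul_eq_mul]
    | add a b ha hb =>
      rw [pb_add_left, Derivation.add_apply, map_add, ha, hb, map_add, pb_add_left,
        Derivation.add_apply]
  | mul a b ha hb =>
    rw [Derivation.leibniz, map_add, smul_eq_mul, smul_eq_mul, map_mul, map_mul, ha, hb,
      map_mul, Derivation.leibniz, smul_eq_mul, smul_eq_mul]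
  | add a b ha hb => rw [map_add, map_add, ha, hb, map_add, map_add]

/-! ## the Lie-Poisson bracket -/

/-- the bilinear map of the Lie-Poisson bracket -/
noncomputable def bL (𝕜 : Type*) [Field 𝕜] (L : Type*) [LieRing L] [LieAlgebra 𝕜 L] :
    L →ₗ[𝕜] L →ₗ[𝕜] Sy 𝕜 L :=
  LinearMap.mk₂ 𝕜 (fun x y => ιS 𝕜 L ⁅x, y⁆) (fun x y z => by rw [add_lie, map_add])
    (fun c x y => by rw [smul_lie, map_smul]) (fun x y z => by rw [lie_add, map_add])
    (fun c x y => by rw [lie_smul, map_smul])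

theorem bL_apply (x y : L) : bL 𝕜 L x y = ιS 𝕜 L ⁅x, y⁆ := rfl

/-- the bilinear map of the frozen bracket -/
noncomputable def bX (ξ : L →ₗ[𝕜] 𝕜) : L →ₗ[𝕜] L →ₗ[𝕜] Sy 𝕜 L :=
  LinearMap.mk₂ 𝕜 (fun x y => algebraMap 𝕜 (Sy 𝕜 L) (ξ ⁅x, y⁆))
    (fun x y z => by rw [add_lie, map_add, map_add])
    (fun c x y => by rw [smul_lie, map_smul, smul_eq_mul, map_mul, Algebra.smul_def])
    (fun x y z => by rw [lie_add, map_add, map_add])
    (fun c x y => by rw [lie_smul, map_smul, smul_eq_mul, map_mul, Algebra.smul_def])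

theorem bX_apply (ξ : L →ₗ[𝕜] 𝕜) (x y : L) : bX ξ x y = algebraMap 𝕜 (Sy 𝕜 L) (ξ ⁅x, y⁆) := rfl

theorem adS_eq (x : L) (F : Sy 𝕜 L) : adS x F = pb (bL 𝕜 L) (ιS 𝕜 L x) F := by
  have h : derD (ιS 𝕜 L ∘ₗ (LieAlgebra.ad 𝕜 L x : L →ₗ[𝕜] L)) = pb (bL 𝕜 L) (ιS 𝕜 L x) :=
    der_ext fun y => by
      rw [derD_ι, pb_ι_ι, bL_apply]
      rfl
  exact congrArg (fun D : Derivation 𝕜 (Sy 𝕜 L) (Sy 𝕜 L) => D F) h

theorem bL_skew (x y : L) : bL 𝕜 L x y = - bL 𝕜 L y x := by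
  rw [bL_apply, bL_apply, ← lie_skew, map_neg]

theorem centre_left {F : Sy 𝕜 L} (hF : F ∈ centre 𝕜 L) (H : Sy 𝕜 L) : pb (bL 𝕜 L) H F = 0 :=
  pb_left_zero _ (fun x => by rw [← adS_eq]; exact hF x) H

theorem centre_right {F : Sy 𝕜 L} (hF : F ∈ centre 𝕜 L) (H : Sy 𝕜 L) : pb (bL 𝕜 L) F H = 0 := by
  rw [pb_skew _ bL_skew, centre_left hF, neg_zero]

/-- the shift by `t ξ` -/
noncomputable def tau (ξ : L →ₗ[𝕜] 𝕜) (t : 𝕜) : Sy 𝕜 L →ₐ[𝕜] Sy 𝕜 L :=
  SymmetricAlgebra.lift (ιS 𝕜 L + (t • (Algebra.linearMap 𝕜 (Sy 𝕜 L) ∘ₗ ξ)))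

theorem tau_ι (ξ : L →ₗ[𝕜] 𝕜) (t : 𝕜) (y : L) :
    tau ξ t (ιS 𝕜 L y) = ιS 𝕜 L y + algebraMap 𝕜 (Sy 𝕜 L) (t * ξ y) := by
  rw [tau, SymmetricAlgebra.lift_ι_apply, map_mul, ← Algebra.smul_def]
  rfl

theorem tau_tau (ξ : L →ₗ[𝕜] 𝕜) (t : 𝕜) (F : Sy 𝕜 L) : tau ξ t (tau ξ (-t) F) = F := by
  have h : (tau ξ t).comp (tau ξ (-t)) = AlgHom.id 𝕜 (Sy 𝕜 L) := by
    refine SymmetricAlgebra.algHom_ext (LinearMap.ext fun y => ?_)
    show tau ξ t (tau ξ (-t) (ιS 𝕜 L y)) = ιS 𝕜 L y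
    rw [tau_ι, map_add, tau_ι, AlgHom.commutes, add_assoc, ← map_add, neg_mul, add_neg_cancel,
      map_zero, add_zero]
  exact congrArg (fun f : Sy 𝕜 L →ₐ[𝕜] Sy 𝕜 L => f F) h

theorem tau_eq_eval (ξ : L →ₗ[𝕜] 𝕜) (t : 𝕜) (F : Sy 𝕜 L) :
    tau ξ t F = (shift ξ F).eval (algebraMap 𝕜 (Sy 𝕜 L) t) := by
  induction F using SymmetricAlgebra.induction with
  | algebraMap r =>
    rw [AlgHom.commutes, AlgHom.commutes, Polynomial.algebraMap_apply, eval_C]
  | ι x =>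
    have h := expand_ι (Algebra.linearMap 𝕜 (Sy 𝕜 L) ∘ₗ ξ) x
    have h2 := tau_ι ξ t x
    rw [shift]
    refine h2.trans ?_
    have h3 : (expand (Algebra.linearMap 𝕜 (Sy 𝕜 L) ∘ₗ ξ) (ιS 𝕜 L x)).eval
        (algebraMap 𝕜 (Sy 𝕜 L) t) = ιS 𝕜 L x + algebraMap 𝕜 (Sy 𝕜 L) (ξ x) *
          algebraMap 𝕜 (Sy 𝕜 L) t := by
      rw [h, eval_add, eval_mul, eval_C, eval_C, eval_X]
      rfl
    refine Eq.trans ?_ h3.symm
    rw [map_mul, mul_comm (algebraMap 𝕜 (Sy 𝕜 L) t)]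
  | mul a b ha hb => rw [map_mul, ha, hb, map_mul, eval_mul]
  | add a b ha hb => rw [map_add, ha, hb, map_add, eval_add]

theorem tau_pb (ξ : L →ₗ[𝕜] 𝕜) (t : 𝕜) (F G : Sy 𝕜 L) :
    tau ξ t (pb (bL 𝕜 L) F G) =
      pb (bL 𝕜 L) (tau ξ t F) (tau ξ t G) + t • pb (bX ξ) (tau ξ t F) (tau ξ t G) := by
  rw [← pb_smul, ← pb_add]
  refine pb_map _ _ (fun x y => ?_) F G
  rw [tau_ι, tau_ι, map_add, Derivation.map_algebraMap, add_zero, pb_add_left,
    pb_algebraMap_left, add_zero, pb_ι_ι, bL_apply, tau_ι, map_mul, ← Algebra.smul_def]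
  rfl

theorem mf_scalar (ξ : L →ₗ[𝕜] 𝕜) {F G : Sy 𝕜 L} (hF : F ∈ centre 𝕜 L) (hG : G ∈ centre 𝕜 L)
    {t u : 𝕜} (htu : t ≠ u) : pb (bL 𝕜 L) (tau ξ t F) (tau ξ u G) = 0 := by
  have h1 : pb (bL 𝕜 L) (tau ξ t F) (tau ξ u G) +
      t • pb (bX ξ) (tau ξ t F) (tau ξ u G) = 0 := by
    have h := tau_pb ξ t F (tau ξ (-t) (tau ξ u G))
    rw [tau_tau, centre_right hF, map_zero] at h
    exact h.symm
  have h2 : pb (bL 𝕜 L) (tau ξ t F) (tau ξ u G) +
      u • pb (bX ξ) (tau ξ t F) (tau ξ u G) = 0 := by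
    have h := tau_pb ξ u (tau ξ (-u) (tau ξ t F)) G
    rw [tau_tau, centre_left hG, map_zero] at h
    exact h.symm
  have h3 : (t - u) • pb (bX ξ) (tau ξ t F) (tau ξ u G) = 0 := by
    rw [sub_smul, ← add_sub_add_left_eq_sub _ _ (pb (bL 𝕜 L) (tau ξ t F) (tau ξ u G)), h1, h2,
      sub_self]
  have h4 := (smul_eq_zero.1 h3).resolve_left (sub_ne_zero.2 htu)
  rw [h4, smul_zero, add_zero] at h1
  exact h1

/-- extraction of coefficients -/
theorem coeff_zero_of_eval [CharZero 𝕜] (Λ : Sy 𝕜 L →ₗ[𝕜] Sy 𝕜 L) (p : (Sy 𝕜 L)[X]) (u : 𝕜)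
    (h : ∀ t, t ≠ u → Λ (p.eval (algebraMap 𝕜 (Sy 𝕜 L) t)) = 0) (n : ℕ) :
    Λ (p.coeff n) = 0 := by
  classical
  set P : (Sy 𝕜 L)[X] := ∑ i ∈ Finset.range (p.natDegree + 1), monomial i (Λ (p.coeff i)) with hP
  have h1 : ∀ t, P.eval (algebraMap 𝕜 (Sy 𝕜 L) t) = Λ (p.eval (algebraMap 𝕜 (Sy 𝕜 L) t)) := by
    intro t
    rw [hP, eval_finsetSum, eval_eq_sum_range, map_sum]
    refine Finset.sum_congr rfl fun i _ => ?_
    rw [eval_monomial, mul_comm, mul_comm (p.coeff i), ← map_pow, ← Algebra.smul_def,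
      ← Algebra.smul_def, map_smul]
  have hinj : Function.Injective (algebraMap 𝕜 (Sy 𝕜 L)) := fun a b hab =>
    (SymmetricAlgebra.algebraMap_inj (R := 𝕜) L a b).1 hab
  have h2 : P = 0 := by
    refine Polynomial.eq_zero_of_infinite_isRoot P ?_
    have h3 : (algebraMap 𝕜 (Sy 𝕜 L) '' {t | t ≠ u}).Infinite := by
      refine Set.Infinite.image hinj.injOn ?_
      exact Set.Finite.infinite_compl (Set.finite_singleton u)
    refine h3.mono ?_
    rintro _ ⟨t, ht, rfl⟩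
    show P.eval _ = 0
    rw [h1, h t ht]
  by_cases hn : n ∈ Finset.range (p.natDegree + 1)
  · have h4 : P.coeff n = Λ (p.coeff n) := by
      rw [hP, finsetSum_coeff, Finset.sum_eq_single n]
      · rw [coeff_monomial, if_pos rfl]
      · intro b _ hb
        rw [coeff_monomial, if_neg hb]
      · intro h
        exact absurd hn h
    rw [← h4, h2, coeff_zero]
  · rw [coeff_eq_zero_of_natDegree_lt, map_zero]
    rw [Finset.mem_range] at hn
    omega

/-- Mishchenko-Fomenko -/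
theorem mf_coeff [CharZero 𝕜] (ξ : L →ₗ[𝕜] 𝕜) {F G : Sy 𝕜 L} (hF : F ∈ centre 𝕜 L)
    (hG : G ∈ centre 𝕜 L) (m n : ℕ) :
    pb (bL 𝕜 L) ((shift ξ F).coeff m) ((shift ξ G).coeff n) = 0 := by
  have h1 : ∀ u, pb (bL 𝕜 L) ((shift ξ F).coeff m) (tau ξ u G) = 0 := by
    intro u
    rw [← pbL_apply]
    refine coeff_zero_of_eval _ _ u (fun t ht => ?_) m
    rw [← tau_eq_eval, pbL_apply]
    exact mf_scalar ξ hF hG ht
  rw [← pbR_apply]
  refine coeff_zero_of_eval _ _ 0 (fun u _ => ?_) n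
  rw [← tau_eq_eval, pbR_apply]
  exact h1 u

theorem adjoin_pb {s : Set (Sy 𝕜 L)} (hs : ∀ a ∈ s, ∀ b ∈ s, pb β a b = 0) {a b : Sy 𝕜 L}
    (ha : a ∈ Algebra.adjoin 𝕜 s) (hb : b ∈ Algebra.adjoin 𝕜 s) : pb β a b = 0 := by
  have h1 : ∀ a ∈ s, ∀ b ∈ Algebra.adjoin 𝕜 s, pb β a b = 0 := by
    intro a ha b hb
    induction hb using Algebra.adjoin_induction with
    | mem x hx => exact hs a ha x hx
    | algebraMap r => exact Derivation.map_algebraMap _ _
    | add x y _ _ hx hy => rw [map_add, hx, hy, add_zero]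
    | mul x y _ _ hx hy => rw [Derivation.leibniz, hx, hy, smul_zero, smul_zero, add_zero]
  induction ha using Algebra.adjoin_induction with
  | mem x hx => exact h1 x hx b hb
  | algebraMap r =>
    rw [pb_algebraMap_left]
    rfl
  | add x y _ _ hx hy => rw [pb_add_left, Derivation.add_apply, hx, hy, add_zero]
  | mul x y _ _ hx hy =>
    rw [pb_mul_left, Derivation.add_apply, Derivation.smul_apply, Derivation.smul_apply, hx, hy,
      smul_zero, smul_zero, add_zero]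

end Pool.Agent.helper5.AS
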