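import Mathlib
import Pool.Agent.helper5.AS.Core
import Pool.Agent.helper5.AS.Poisson

/-!
# First order elements and their lifts
-/

set_option autoImplicit false

namespace Pool.Agent.helper5.AS

variable {𝕜 : Type*} [Field 𝕜] {L : Type*} [LieRing L] [LieAlgebra 𝕜 L]

/-- the diagonal map `L → S(L) × U(L)` -/
noncomputable def Gam (𝕜 : Type*) [Field 𝕜] (L : Type*) [LieRing L] [LieAlgebra 𝕜 L] :
    L →ₗ[𝕜] W 𝕜 L := LinearMap.prod (ιS 𝕜 L) (ιU 𝕜 L)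

theorem Gam_fst (x : L) : (Gam 𝕜 L x).1 = ιS 𝕜 L x := rfl

theorem Gam_snd (x : L) : (Gam 𝕜 L x).2 = ιU 𝕜 L x := rfl

/-- the bracket on `S(L) × U(L)` -/
noncomputable def Bw (w w' : W 𝕜 L) : W 𝕜 L :=
  (pb (bL 𝕜 L) w.1 w'.1, w.2 * w'.2 - w'.2 * w.2)

theorem Bw_add_left (w w' z : W 𝕜 L) : Bw (w + w') z = Bw w z + Bw w' z := by
  refine Prod.ext ?_ ?_
  · show pb (bL 𝕜 L) (w.1 + w'.1) z.1 = pb (bL 𝕜 L) w.1 z.1 + pb (bL 𝕜 L) w'.1 z.1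
    rw [pb_add_left, Derivation.add_apply]
  · show (w.2 + w'.2) * z.2 - z.2 * (w.2 + w'.2) =
      w.2 * z.2 - z.2 * w.2 + (w'.2 * z.2 - z.2 * w'.2)
    noncomm_ring

theorem Bw_add_right (z w w' : W 𝕜 L) : Bw z (w + w') = Bw z w + Bw z w' := by
  refine Prod.ext ?_ ?_
  · show pb (bL 𝕜 L) z.1 (w.1 + w'.1) = pb (bL 𝕜 L) z.1 w.1 + pb (bL 𝕜 L) z.1 w'.1
    exact (pb (bL 𝕜 L) z.1).map_add _ _
  · show z.2 * (w.2 + w'.2) - (w.2 + w'.2) * z.2 =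
      z.2 * w.2 - w.2 * z.2 + (z.2 * w'.2 - w'.2 * z.2)
    noncomm_ring

theorem Bw_mul_left (w w' z : W 𝕜 L) : Bw (w * w') z = w * Bw w' z + Bw w z * w' := by
  refine Prod.ext ?_ ?_
  · show pb (bL 𝕜 L) (w.1 * w'.1) z.1 =
      w.1 * pb (bL 𝕜 L) w'.1 z.1 + pb (bL 𝕜 L) w.1 z.1 * w'.1
    rw [pb_mul_left, Derivation.add_apply, Derivation.smul_apply, Derivation.smul_apply,
      smul_eq_mul, smul_eq_mul, mul_comm w'.1]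
  · show w.2 * w'.2 * z.2 - z.2 * (w.2 * w'.2) =
      w.2 * (w'.2 * z.2 - z.2 * w'.2) + (w.2 * z.2 - z.2 * w.2) * w'.2
    noncomm_ring

theorem Bw_mul_right (z w w' : W 𝕜 L) : Bw z (w * w') = w * Bw z w' + Bw z w * w' := by
  refine Prod.ext ?_ ?_
  · show pb (bL 𝕜 L) z.1 (w.1 * w'.1) =
      w.1 * pb (bL 𝕜 L) z.1 w'.1 + pb (bL 𝕜 L) z.1 w.1 * w'.1
    rw [Derivation.leibniz, smul_eq_mul, smul_eq_mul, mul_comm w'.1]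
  · show z.2 * (w.2 * w'.2) - w.2 * w'.2 * z.2 =
      w.2 * (z.2 * w'.2 - w'.2 * z.2) + (z.2 * w.2 - w.2 * z.2) * w'.2
    noncomm_ring

theorem Bw_algebraMap_left (c : 𝕜) (z : W 𝕜 L) : Bw (algebraMap 𝕜 (W 𝕜 L) c) z = 0 := by
  refine Prod.ext ?_ ?_
  · show pb (bL 𝕜 L) (algebraMap 𝕜 (Sy 𝕜 L) c) z.1 = 0
    rw [pb_algebraMap_left]
    rfl
  · show algebraMap 𝕜 (Ue 𝕜 L) c * z.2 - z.2 * algebraMap 𝕜 (Ue 𝕜 L) c = 0
    rw [Algebra.commutes, sub_self]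

theorem Bw_algebraMap_right (c : 𝕜) (z : W 𝕜 L) : Bw z (algebraMap 𝕜 (W 𝕜 L) c) = 0 := by
  refine Prod.ext ?_ ?_
  · show pb (bL 𝕜 L) z.1 (algebraMap 𝕜 (Sy 𝕜 L) c) = 0
    exact Derivation.map_algebraMap _ _
  · show z.2 * algebraMap 𝕜 (Ue 𝕜 L) c - algebraMap 𝕜 (Ue 𝕜 L) c * z.2 = 0
    rw [Algebra.commutes, sub_self]

theorem Bw_Gam (x y : L) : Bw (Gam 𝕜 L x) (Gam 𝕜 L y) = Gam 𝕜 L ⁅x, y⁆ := by
  refine Prod.ext ?_ ?_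
  · show pb (bL 𝕜 L) (ιS 𝕜 L x) (ιS 𝕜 L y) = ιS 𝕜 L ⁅x, y⁆
    rw [pb_ι_ι, bL_apply]
  · exact ιU_comm x y

theorem Bw_skew (w z : W 𝕜 L) : Bw w z = - Bw z w := by
  refine Prod.ext ?_ ?_
  · exact pb_skew _ bL_skew _ _
  · show w.2 * z.2 - z.2 * w.2 = - (z.2 * w.2 - w.2 * z.2)
    noncomm_ring

/-- the image of the diagonal map -/
noncomputable def imG (𝕜 : Type*) [Field 𝕜] (L : Type*) [LieRing L] [LieAlgebra 𝕜 L] :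
    Submodule 𝕜 (W 𝕜 L) := LinearMap.range (Gam 𝕜 L)

/-- the functions (elements of order zero) with their lifts -/
noncomputable def L0 (V : Submodule 𝕜 L) : Subalgebra 𝕜 (W 𝕜 L) :=
  Algebra.adjoin 𝕜 (Gam 𝕜 L '' (V : Set L))

/-- the elements of order at most one with their lifts -/
noncomputable def L1 (V : Submodule 𝕜 L) : Submodule 𝕜 (W 𝕜 L) :=
  Subalgebra.toSubmodule (L0 V) * (1 ⊔ imG 𝕜 L)

section

variable {V : Submodule 𝕜 L}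

theorem Gam_mem_L0 {v : L} (hv : v ∈ V) : Gam 𝕜 L v ∈ L0 V :=
  Algebra.subset_adjoin ⟨v, hv, rfl⟩

theorem L0_le_L1 : Subalgebra.toSubmodule (L0 V) ≤ L1 V := by
  intro w hw
  have h := Submodule.mul_mem_mul hw
    ((le_sup_left : (1 : Submodule 𝕜 (W 𝕜 L)) ≤ 1 ⊔ imG 𝕜 L) (Submodule.one_le.1 le_rfl))
  rwa [mul_one] at h

theorem mul_mem_L1 {a w : W 𝕜 L} (ha : a ∈ L0 V) (hw : w ∈ L1 V) : a * w ∈ L1 V := by
  have h := Submodule.mul_mem_mul (M := Subalgebra.toSubmodule (L0 V)) ha hw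
  rwa [L1, ← mul_assoc, (Subalgebra.isIdempotentElem_toSubmodule (L0 V)).eq] at h

theorem mul_Gam_mem_L1 {a : W 𝕜 L} (ha : a ∈ L0 V) (x : L) : a * Gam 𝕜 L x ∈ L1 V :=
  Submodule.mul_mem_mul ha ((le_sup_right : imG 𝕜 L ≤ 1 ⊔ imG 𝕜 L) ⟨x, rfl⟩)

theorem Bw_L0_L0 (hab : ∀ v ∈ V, ∀ v' ∈ V, ⁅v, v'⁆ = 0) {a a' : W 𝕜 L} (ha : a ∈ L0 V)
    (ha' : a' ∈ L0 V) : Bw a a' = 0 := by
  have h1 : ∀ v ∈ V, ∀ a' ∈ L0 V, Bw (Gam 𝕜 L v) a' = 0 := by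
    intro v hv a' ha'
    induction ha' using Algebra.adjoin_induction with
    | mem x hx =>
      obtain ⟨v', hv', rfl⟩ := hx
      rw [Bw_Gam, hab v hv v' hv', map_zero]
    | algebraMap r => exact Bw_algebraMap_right _ _
    | add x y _ _ hx hy => rw [Bw_add_right, hx, hy, add_zero]
    | mul x y _ _ hx hy => rw [Bw_mul_right, hx, hy, mul_zero, zero_mul, add_zero]
  induction ha using Algebra.adjoin_induction with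
  | mem x hx =>
    obtain ⟨v, hv, rfl⟩ := hx
    exact h1 v hv a' ha'
  | algebraMap r => exact Bw_algebraMap_left _ _
  | add x y _ _ hx hy => rw [Bw_add_left, hx, hy, add_zero]
  | mul x y _ _ hx hy => rw [Bw_mul_left, hx, hy, mul_zero, zero_mul, add_zero]

theorem L0_comm (hab : ∀ v ∈ V, ∀ v' ∈ V, ⁅v, v'⁆ = 0) {a a' : W 𝕜 L} (ha : a ∈ L0 V)
    (ha' : a' ∈ L0 V) : a * a' = a' * a := by
  have h := congrArg Prod.snd (Bw_L0_L0 hab ha ha')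
  refine Prod.ext (mul_comm _ _) ?_
  exact sub_eq_zero.1 h

theorem Bw_Gam_L0 (hV : ∀ x : L, ∀ v ∈ V, ⁅x, v⁆ ∈ V) (x : L) {a : W 𝕜 L} (ha : a ∈ L0 V) :
    Bw (Gam 𝕜 L x) a ∈ L0 V := by
  induction ha using Algebra.adjoin_induction with
  | mem y hy =>
    obtain ⟨v, hv, rfl⟩ := hy
    rw [Bw_Gam]
    exact Gam_mem_L0 (hV x v hv)
  | algebraMap r =>
    rw [Bw_algebraMap_right]
    exact zero_mem _
  | add y z _ _ hy hz =>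
    rw [Bw_add_right]
    exact add_mem hy hz
  | mul y z hy' hz' hy hz =>
    rw [Bw_mul_right]
    exact add_mem (mul_mem hy' hz) (mul_mem hy hz')

theorem Bw_e_L0 (hV : ∀ x : L, ∀ v ∈ V, ⁅x, v⁆ ∈ V) {e : W 𝕜 L} (he : e ∈ 1 ⊔ imG 𝕜 L)
    {a : W 𝕜 L} (ha : a ∈ L0 V) : Bw e a ∈ L0 V := by
  obtain ⟨w1, hw1, _, ⟨x, rfl⟩, rfl⟩ := Submodule.mem_sup.1 he
  obtain ⟨c, rfl⟩ := Submodule.mem_one.1 hw1
  rw [Bw_add_left, Bw_algebraMap_left, zero_add]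
  exact Bw_Gam_L0 hV x ha

theorem Bw_e_e {e e' : W 𝕜 L} (he : e ∈ 1 ⊔ imG 𝕜 L) (he' : e' ∈ 1 ⊔ imG 𝕜 L) :
    Bw e e' ∈ 1 ⊔ imG 𝕜 L := by
  obtain ⟨w1, hw1, _, ⟨x, rfl⟩, rfl⟩ := Submodule.mem_sup.1 he
  obtain ⟨c, rfl⟩ := Submodule.mem_one.1 hw1
  obtain ⟨w1', hw1', _, ⟨x', rfl⟩, rfl⟩ := Submodule.mem_sup.1 he'
  obtain ⟨c', rfl⟩ := Submodule.mem_one.1 hw1'
  rw [Bw_add_left, Bw_algebraMap_left, zero_add, Bw_add_right, Bw_algebraMap_right, zero_add,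
    Bw_Gam]
  exact (le_sup_right : imG 𝕜 L ≤ 1 ⊔ imG 𝕜 L) ⟨_, rfl⟩

/-- the elements of order at most one are closed under the bracket -/
theorem Bw_L1_L1 (hV : ∀ x : L, ∀ v ∈ V, ⁅x, v⁆ ∈ V) (hab : ∀ v ∈ V, ∀ v' ∈ V, ⁅v, v'⁆ = 0)
    {w w' : W 𝕜 L} (hw : w ∈ L1 V) (hw' : w' ∈ L1 V) : Bw w w' ∈ L1 V := by
  refine Submodule.mul_induction_on hw ?_ ?_
  · intro a ha e he
    rw [Subalgebra.mem_toSubmodule] at ha
    refine Submodule.mul_induction_on hw' ?_ ?_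
    · intro a' ha' e' he'
      rw [Subalgebra.mem_toSubmodule] at ha'
      rw [Bw_mul_left, Bw_mul_right, Bw_mul_right, Bw_L0_L0 hab ha ha', zero_mul, add_zero]
      have h1 : Bw a e' ∈ L0 V := by
        rw [Bw_skew]
        exact neg_mem (Bw_e_L0 hV he' ha)
      have h2 : Bw e a' ∈ L0 V := Bw_e_L0 hV he ha'
      refine add_mem (mul_mem_L1 ha (add_mem ?_ ?_)) ?_
      · exact Submodule.mul_mem_mul ha' (Bw_e_e he he')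
      · exact Submodule.mul_mem_mul h2 he'
      · have h3 : a' * Bw a e' ∈ L0 V := mul_mem ha' h1
        exact Submodule.mul_mem_mul (M := Subalgebra.toSubmodule (L0 V)) h3 he
    · intro y z hy hz
      rw [Bw_add_right]
      exact add_mem hy hz
  · intro y z hy hz
    rw [Bw_add_left]
    exact add_mem hy hz

/-! ## gradings -/

theorem Gam_mem_Hm (x : L) : Gam 𝕜 L x ∈ Hm 𝕜 L 1 := isSymbol_ι x

theorem one_mem_Hm : (1 : W 𝕜 L) ∈ Hm 𝕜 L 0 := isSymbol_one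

theorem L0_grd : Subalgebra.toSubmodule (L0 V) ≤ grd (Subalgebra.toSubmodule (L0 V)) := by
  refine adjoin_grd ?_
  rintro _ ⟨v, hv, rfl⟩
  exact mem_grd_of (Gam_mem_L0 hv) (Gam_mem_Hm v)

theorem e_grd : (1 ⊔ imG 𝕜 L : Submodule 𝕜 (W 𝕜 L)) ≤ grd (1 ⊔ imG 𝕜 L) := by
  refine sup_le ?_ ?_
  · rw [Submodule.one_le]
    exact mem_grd_of ((le_sup_left : (1 : Submodule 𝕜 (W 𝕜 L)) ≤ 1 ⊔ imG 𝕜 L)
      (Submodule.one_le.1 le_rfl)) one_mem_Hm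
  · rintro _ ⟨x, rfl⟩
    exact mem_grd_of ((le_sup_right : imG 𝕜 L ≤ 1 ⊔ imG 𝕜 L) ⟨x, rfl⟩) (Gam_mem_Hm x)

theorem L1_grd : L1 V ≤ grd (L1 V) :=
  le_trans (mul_le_mul' L0_grd e_grd) grd_mul

end

end Pool.Agent.helper5.AS
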