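import Mathlib
import Pool.Agent.helper5.AS.First

/-!
# Coordinates of the first order elements
-/

set_option autoImplicit false

namespace Pool.Agent.helper5.AS

variable {𝕜 : Type*} [Field 𝕜] {L : Type*} [LieRing L] [LieAlgebra 𝕜 L]

open scoped IsMulCommutative in
/-- homomorphisms from a polynomial ring to a noncommutative algebra -/
theorem comm_hom {B : Type*} [Ring B] [Algebra 𝕜 B] {ι : Type*} (f : ι → B)
    (hf : ∀ i j, f i * f j = f j * f i) :
    ∃ ψ : MvPolynomial ι 𝕜 →ₐ[𝕜] B, ∀ i, ψ (MvPolynomial.X i) = f i := by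
  have hs : ∀ x ∈ Set.range f, ∀ y ∈ Set.range f, x * y = y * x := by
    rintro _ ⟨i, rfl⟩ _ ⟨j, rfl⟩
    exact hf i j
  have := Algebra.isMulCommutative_adjoin 𝕜 hs
  refine ⟨(Algebra.adjoin 𝕜 (Set.range f)).val.comp
    (MvPolynomial.aeval fun i => (⟨f i, Algebra.subset_adjoin ⟨i, rfl⟩⟩ :
      Algebra.adjoin 𝕜 (Set.range f))), fun i => ?_⟩
  rw [AlgHom.comp_apply, MvPolynomial.aeval_X]
  rfl

/-- coordinates adapted to a subspace `V` -/
structure Spl (V : Submodule 𝕜 L) where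
  /-- the dimension of the complement -/
  m : ℕ
  /-- a basis of the complement -/
  x : Fin m → L
  /-- the projection to `V` -/
  π : L →ₗ[𝕜] V
  /-- the coordinates -/
  cd : Fin m → (L →ₗ[𝕜] 𝕜)
  repr : ∀ y, y = (π y : L) + ∑ j, cd j y • x j
  π_V : ∀ v : V, π (v : L) = v
  cd_V : ∀ (v : V) (j : Fin m), cd j (v : L) = 0
  π_x : ∀ j, π (x j) = 0
  cd_x : ∀ j k, cd j (x k) = if j = k then 1 else 0

theorem exists_spl [FiniteDimensional 𝕜 L] (V : Submodule 𝕜 L) : Nonempty (Spl V) := by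
  classical
  obtain ⟨V', h⟩ := V.exists_isCompl
  let b := Module.finBasis 𝕜 V'
  have h1 : ∀ y, (V.projectionOnto V' h y : L) + (V'.projectionOnto V h.symm y : L) = y :=
    fun y => Submodule.projection_add_projection_eq_self h y
  refine ⟨⟨Module.finrank 𝕜 V', fun j => (b j : L), V.projectionOnto V' h,
    fun j => b.coord j ∘ₗ V'.projectionOnto V h.symm, ?_, ?_, ?_, ?_, ?_⟩⟩
  · intro y
    have h2 : ∑ j, (b.coord j ∘ₗ V'.projectionOnto V h.symm) y • (b j : L) =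
        (V'.projectionOnto V h.symm y : L) := by
      have h3 := congrArg (fun z : V' => (z : L)) (b.sum_repr (V'.projectionOnto V h.symm y))
      rw [← h3]
      push_cast
      rfl
    rw [h2, h1]
  · intro v
    exact Submodule.projectionOnto_apply_left h v
  · intro v j
    rw [LinearMap.comp_apply, Submodule.projectionOnto_apply_right h.symm, map_zero]
  · intro j
    exact Submodule.projectionOnto_apply_right h (b j)
  · intro j k
    rw [LinearMap.comp_apply, Submodule.projectionOnto_apply_left h.symm, Module.Basis.coord_apply,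
      Module.Basis.repr_self, Finsupp.single_apply]
    simp only [eq_comm]

/-- the functions -/
abbrev RR (V : Submodule 𝕜 L) : Type _ := SymmetricAlgebra 𝕜 V

/-- the lift of functions -/
theorem exists_lam {V : Submodule 𝕜 L} (hab : ∀ v ∈ V, ∀ v' ∈ V, ⁅v, v'⁆ = 0) :
    ∃ lam : RR V →ₐ[𝕜] W 𝕜 L, ∀ v : V, lam (SymmetricAlgebra.ι 𝕜 V v) = Gam 𝕜 L (v : L) := by
  classical
  let b := Module.Basis.ofVectorSpace 𝕜 V
  obtain ⟨ψ, hψ⟩ := comm_hom (𝕜 := 𝕜) (fun i => Gam 𝕜 L (b i : L)) (fun i j =>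
    L0_comm hab (Gam_mem_L0 (b i).2) (Gam_mem_L0 (b j).2))
  refine ⟨ψ.comp (SymmetricAlgebra.equivMvPolynomial b).toAlgHom, ?_⟩
  have h : (ψ.comp (SymmetricAlgebra.equivMvPolynomial b).toAlgHom).toLinearMap ∘ₗ
      SymmetricAlgebra.ι 𝕜 V = Gam 𝕜 L ∘ₗ V.subtype := by
    refine b.ext fun i => ?_
    show ψ (SymmetricAlgebra.equivMvPolynomial b (SymmetricAlgebra.ι 𝕜 V (b i))) = _
    rw [SymmetricAlgebra.equivMvPolynomial_ι_apply, hψ]
    rfl
  exact fun v => congrArg (fun F : V →ₗ[𝕜] W 𝕜 L => F v) h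

section

variable {V : Submodule 𝕜 L} {lam : RR V →ₐ[𝕜] W 𝕜 L}
  (hlam : ∀ v : V, lam (SymmetricAlgebra.ι 𝕜 V v) = Gam 𝕜 L (v : L))

include hlam

theorem lam_mem (p : RR V) : lam p ∈ L0 V := by
  induction p using SymmetricAlgebra.induction with
  | algebraMap r =>
    rw [AlgHom.commutes]
    exact Subalgebra.algebraMap_mem _ r
  | ι v =>
    rw [hlam]
    exact Gam_mem_L0 v.2
  | mul a b ha hb =>
    rw [map_mul]
    exact mul_mem ha hb
  | add a b ha hb =>
    rw [map_add]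
    exact add_mem ha hb

theorem exists_of_mem_L0 {w : W 𝕜 L} (hw : w ∈ L0 V) : ∃ p, lam p = w := by
  have h : L0 V ≤ lam.range := by
    rw [L0, Algebra.adjoin_le_iff]
    rintro _ ⟨v, hv, rfl⟩
    exact ⟨SymmetricAlgebra.ι 𝕜 V ⟨v, hv⟩, hlam _⟩
  exact h hw

/-- evaluation of the coordinates outside `V` -/
theorem exists_ev (sp : Spl V) {F : Type*} [CommRing F] [Algebra 𝕜 F] (r : RR V →ₐ[𝕜] F)
    (c : Fin sp.m → F) :
    ∃ ev : Sy 𝕜 L →ₐ[𝕜] F, (∀ p, ev (lam p).1 = r p) ∧ ∀ j, ev (ιS 𝕜 L (sp.x j)) = c j := by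
  classical
  let f : L →ₗ[𝕜] F := r.toLinearMap ∘ₗ SymmetricAlgebra.ι 𝕜 V ∘ₗ sp.π +
    ∑ j, (LinearMap.toSpanSingleton 𝕜 F (c j)) ∘ₗ sp.cd j
  have hf : ∀ y, f y = r (SymmetricAlgebra.ι 𝕜 V (sp.π y)) + ∑ j, sp.cd j y • c j := by
    intro y
    show (r.toLinearMap ∘ₗ SymmetricAlgebra.ι 𝕜 V ∘ₗ sp.π) y +
      (∑ j, (LinearMap.toSpanSingleton 𝕜 F (c j)) ∘ₗ sp.cd j) y = _
    rw [LinearMap.sum_apply]
    rfl
  refine ⟨SymmetricAlgebra.lift f, ?_, ?_⟩
  · have h : ((SymmetricAlgebra.lift f).comp ((AlgHom.fst 𝕜 (Sy 𝕜 L) (Ue 𝕜 L)).comp lam)) =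
        r := by
      refine SymmetricAlgebra.algHom_ext (LinearMap.ext fun v => ?_)
      show SymmetricAlgebra.lift f (lam (SymmetricAlgebra.ι 𝕜 V v)).1 =
        r (SymmetricAlgebra.ι 𝕜 V v)
      rw [hlam, Gam_fst, SymmetricAlgebra.lift_ι_apply, hf, sp.π_V, Finset.sum_eq_zero,
        add_zero]
      intro j _
      rw [sp.cd_V, zero_smul]
    exact fun p => congrArg (fun F : RR V →ₐ[𝕜] _ => F p) h
  · intro j
    rw [SymmetricAlgebra.lift_ι_apply, hf, sp.π_x, map_zero, map_zero, zero_add,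
      Finset.sum_eq_single j]
    · rw [sp.cd_x, if_pos rfl, one_smul]
    · intro k _ hk
      rw [sp.cd_x, if_neg hk, zero_smul]
    · intro h
      exact absurd (Finset.mem_univ j) h

/-- the functions are determined by their symbols -/
theorem lam_fst_inj (sp : Spl V) {p : RR V} (h : (lam p).1 = 0) : p = 0 := by
  obtain ⟨ev, hev, _⟩ := exists_ev hlam sp (AlgHom.id 𝕜 (RR V)) 0
  have h1 := hev p
  rw [h, map_zero] at h1
  exact h1.symm

theorem L0_sv (sp : Spl V) {w : W 𝕜 L} (hw : w ∈ L0 V) (h : w.1 = 0) : w = 0 := by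
  obtain ⟨p, rfl⟩ := exists_of_mem_L0 hlam hw
  rw [lam_fst_inj hlam sp h, map_zero]

omit hlam in
/-- the element of order at most one with given coefficients -/
noncomputable def mk1 (lam : RR V →ₐ[𝕜] W 𝕜 L) (sp : Spl V) (a : Fin sp.m → RR V) (b : RR V) :
    W 𝕜 L := ∑ j, lam (a j) * Gam 𝕜 L (sp.x j) + lam b

theorem exists_mk1 (sp : Spl V) {w : W 𝕜 L} (hw : w ∈ L1 V) :
    ∃ a b, mk1 lam sp a b = w := by
  refine Submodule.mul_induction_on hw ?_ ?_
  · intro z hz e he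
    obtain ⟨p, rfl⟩ := exists_of_mem_L0 hlam hz
    obtain ⟨w1, hw1, _, ⟨y, rfl⟩, rfl⟩ := Submodule.mem_sup.1 he
    obtain ⟨c, rfl⟩ := Submodule.mem_one.1 hw1
    refine ⟨fun j => sp.cd j y • p, p * (algebraMap 𝕜 _ c + SymmetricAlgebra.ι 𝕜 V (sp.π y)),
      ?_⟩
    have h1 : Gam 𝕜 L y = lam (SymmetricAlgebra.ι 𝕜 V (sp.π y)) +
        ∑ j, sp.cd j y • Gam 𝕜 L (sp.x j) := by
      rw [hlam]
      conv_lhs => rw [sp.repr y]
      rw [map_add, map_sum]
      congr 1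
      exact Finset.sum_congr rfl fun j _ => map_smul _ _ _
    rw [mk1, h1, map_mul, map_add, AlgHom.commutes]
    have h2 : ∑ j, lam (sp.cd j y • p) * Gam 𝕜 L (sp.x j) =
        lam p * ∑ j, sp.cd j y • Gam 𝕜 L (sp.x j) := by
      rw [Finset.mul_sum]
      refine Finset.sum_congr rfl fun j _ => ?_
      rw [map_smul, smul_mul_assoc, mul_smul_comm]
    rw [h2]
    noncomm_ring
  · rintro _ _ ⟨a, b, rfl⟩ ⟨a', b', rfl⟩
    refine ⟨a + a', b + b', ?_⟩
    rw [mk1, mk1, mk1, map_add, add_add_add_comm, ← Finset.sum_add_distrib]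
    congr 1
    refine Finset.sum_congr rfl fun j _ => ?_
    rw [Pi.add_apply, map_add, add_mul]

omit hlam in
theorem ev_mk1 (sp : Spl V) {F : Type*} [CommRing F] [Algebra 𝕜 F] (r : RR V →ₐ[𝕜] F)
    (c : Fin sp.m → F) {ev : Sy 𝕜 L →ₐ[𝕜] F} (hev : ∀ p, ev (lam p).1 = r p)
    (hev' : ∀ j, ev (ιS 𝕜 L (sp.x j)) = c j) (a : Fin sp.m → RR V) (b : RR V) :
    ev (mk1 lam sp a b).1 = ∑ j, r (a j) * c j + r b := by
  have h : (mk1 lam sp a b).1 = ∑ j, (lam (a j)).1 * ιS 𝕜 L (sp.x j) + (lam b).1 := by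
    rw [mk1, Prod.fst_add, Prod.fst_sum]
    rfl
  rw [h, map_add, map_sum, hev]
  congr 1
  refine Finset.sum_congr rfl fun j _ => ?_
  rw [map_mul, hev, hev']

theorem L1_sv (sp : Spl V) {w : W 𝕜 L} (hw : w ∈ L1 V) (h : w.1 = 0) : w = 0 := by
  classical
  obtain ⟨a, b, rfl⟩ := exists_mk1 hlam sp hw
  let r : RR V →ₐ[𝕜] MvPolynomial (Fin sp.m) (RR V) :=
    IsScalarTower.toAlgHom 𝕜 (RR V) (MvPolynomial (Fin sp.m) (RR V))
  have hr : ∀ p, r p = MvPolynomial.C p := fun p => rfl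
  obtain ⟨ev, hev, hev'⟩ := exists_ev hlam sp r (fun j => MvPolynomial.X j)
  have h1 := ev_mk1 sp r _ hev hev' a b
  rw [h, map_zero] at h1
  have hb : b = 0 := by
    have h2 := congrArg (MvPolynomial.coeff 0) h1
    rw [MvPolynomial.coeff_zero, MvPolynomial.coeff_add, MvPolynomial.coeff_sum,
      Finset.sum_eq_zero, zero_add, hr, MvPolynomial.coeff_C, if_pos rfl] at h2
    · exact h2.symm
    · intro j _
      rw [hr, MvPolynomial.coeff_C_mul, MvPolynomial.coeff_X, if_neg, mul_zero]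
      intro h3
      have h4 := DFunLike.congr_fun h3 j
      rw [Finsupp.single_eq_same] at h4
      exact one_ne_zero h4
  have ha : a = 0 := by
    funext k
    have h2 := congrArg (MvPolynomial.coeff (Finsupp.single k 1)) h1
    rw [MvPolynomial.coeff_zero, MvPolynomial.coeff_add, MvPolynomial.coeff_sum, hb, map_zero,
      MvPolynomial.coeff_zero, add_zero, Finset.sum_eq_single k] at h2
    · rw [hr, MvPolynomial.coeff_C_mul, MvPolynomial.coeff_X, if_pos rfl, mul_one] at h2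
      exact h2.symm
    · intro j _ hj
      rw [hr, MvPolynomial.coeff_C_mul, MvPolynomial.coeff_X, if_neg, mul_zero]
      intro h3
      exact hj (Finsupp.single_left_injective one_ne_zero h3)
    · intro h
      exact absurd (Finset.mem_univ k) h
  rw [ha, hb, mk1, map_zero, add_zero]
  refine Finset.sum_eq_zero fun j _ => ?_
  rw [Pi.zero_apply, map_zero, zero_mul]

end

end Pool.Agent.helper5.AS
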