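import Mathlib
import Pool.Agent.helper5.AS.Split

/-!
# Lifting of algebraic relations between commuting first order elements
-/

set_option autoImplicit false

namespace Pool.Agent.helper5.AS

open MvPolynomial

variable {𝕜 : Type*} [Field 𝕜] {L : Type*} [LieRing L] [LieAlgebra 𝕜 L]
variable {V : Submodule 𝕜 L}

section

variable (lam : RR V →ₐ[𝕜] W 𝕜 L) {s : Type*} (ψ : MvPolynomial s 𝕜 →ₐ[𝕜] W 𝕜 L)

/-- substitution of commuting elements into polynomials with coefficients (on the left) in the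
functions -/
noncomputable def Psi : MvPolynomial s (RR V) →+ W 𝕜 L :=
  letI : Module (RR V) (W 𝕜 L) := Module.compHom (W 𝕜 L) (lam : RR V →+* W 𝕜 L)
  ((MvPolynomial.basisMonomials s (RR V)).constr (RR V) fun β =>
    ψ (MvPolynomial.monomial β 1)).toAddMonoidHom

theorem Psi_monomial (β : s →₀ ℕ) (c : RR V) :
    Psi lam ψ (monomial β c) = lam c * ψ (monomial β 1) := by
  let _ : Module (RR V) (W 𝕜 L) := Module.compHom (W 𝕜 L) (lam : RR V →+* W 𝕜 L)
  have h : monomial β c = c • (MvPolynomial.basisMonomials s (RR V)) β := by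
    rw [MvPolynomial.coe_basisMonomials]
    show _ = c • monomial β 1
    rw [smul_monomial, smul_eq_mul, mul_one]
  show ((MvPolynomial.basisMonomials s (RR V)).constr (RR V) fun β =>
    ψ (MvPolynomial.monomial β 1)) (monomial β c) = _
  rw [h, map_smul, Module.Basis.constr_basis]
  rfl

theorem Psi_mul_mono (Q : MvPolynomial s (RR V)) (γ : s →₀ ℕ) :
    Psi lam ψ Q * ψ (monomial γ 1) = Psi lam ψ (Q * monomial γ 1) := by
  induction Q using MvPolynomial.induction_on' with
  | monomial β c =>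
    rw [Psi_monomial, monomial_mul, Psi_monomial, mul_assoc, ← map_mul ψ, monomial_mul, mul_one,
      mul_one]
  | add p q hp hq => rw [map_add, add_mul, hp, hq, add_mul, map_add]

theorem lam_mul_Psi (c : RR V) (Q : MvPolynomial s (RR V)) :
    lam c * Psi lam ψ Q = Psi lam ψ (C c * Q) := by
  induction Q using MvPolynomial.induction_on' with
  | monomial β d =>
    rw [Psi_monomial, C_mul_monomial, Psi_monomial, map_mul, mul_assoc]
  | add p q hp hq => rw [map_add, mul_add, hp, hq, mul_add, map_add]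

theorem Psi_mul {w : W 𝕜 L} (hw : ∀ β : s →₀ ℕ, w * ψ (monomial β 1) = ψ (monomial β 1) * w)
    {δ : RR V} {Q' : MvPolynomial s (RR V)} (hδ : lam δ * w = Psi lam ψ Q')
    (Q : MvPolynomial s (RR V)) : lam δ * (Psi lam ψ Q * w) = Psi lam ψ (Q * Q') := by
  induction Q using MvPolynomial.induction_on' with
  | monomial β c =>
    have h1 : lam δ * (Psi lam ψ (monomial β c) * w) =
        lam c * ((lam δ * w) * ψ (monomial β 1)) := by
      rw [Psi_monomial, mul_assoc, ← hw, ← mul_assoc, ← mul_assoc, ← mul_assoc, ← mul_assoc,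
        ← map_mul lam, ← map_mul lam, mul_comm δ c]
    rw [h1, hδ, Psi_mul_mono, lam_mul_Psi, ← mul_assoc, mul_comm (C c) Q', mul_assoc,
      C_mul_monomial, mul_one, mul_comm]
  | add p q hp hq => rw [map_add, add_mul, mul_add, hp, hq, add_mul, map_add]

theorem Psi_fst {g : s → W 𝕜 L} (hψ : ∀ i, ψ (X i) = g i) (Q : MvPolynomial s (RR V)) :
    (Psi lam ψ Q).1 = eval₂ ((RingHom.fst (Sy 𝕜 L) (Ue 𝕜 L)).comp (lam : RR V →+* W 𝕜 L))
      (fun i => (g i).1) Q := by
  have h0 : (AlgHom.fst 𝕜 (Sy 𝕜 L) (Ue 𝕜 L)).comp ψ = aeval fun i => (g i).1 := by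
    refine MvPolynomial.algHom_ext fun i => ?_
    rw [AlgHom.comp_apply, hψ, aeval_X]
    rfl
  induction Q using MvPolynomial.induction_on' with
  | monomial β c =>
    have h1 : (ψ (monomial β 1)).1 = β.prod fun i n => (g i).1 ^ n := by
      have h2 := congrArg (fun F : MvPolynomial s 𝕜 →ₐ[𝕜] Sy 𝕜 L => F (monomial β 1)) h0
      have h3 : (aeval fun i => (g i).1 : MvPolynomial s 𝕜 →ₐ[𝕜] Sy 𝕜 L) (monomial β 1) =
          β.prod fun i n => (g i).1 ^ n := by
        rw [aeval_monomial, map_one, one_mul]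
      exact h2.trans h3
    rw [Psi_monomial, eval₂_monomial, ← h1]
    rfl
  | add p q hp hq => rw [map_add, eval₂_add, ← hp, ← hq]; rfl

end

theorem lam_mul_mk1 (lam : RR V →ₐ[𝕜] W 𝕜 L) (sp : Spl V) (c : RR V) (a : Fin sp.m → RR V)
    (b : RR V) : lam c * mk1 lam sp a b = mk1 lam sp (fun j => c * a j) (c * b) := by
  rw [mk1, mk1, mul_add, Finset.mul_sum, map_mul]
  congr 1
  refine Finset.sum_congr rfl fun j _ => ?_
  rw [map_mul, mul_assoc]

theorem sum_mk1 (lam : RR V →ₐ[𝕜] W 𝕜 L) (sp : Spl V) {ι : Type*} (S : Finset ι)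
    (a : ι → Fin sp.m → RR V) (b : ι → RR V) :
    ∑ k ∈ S, mk1 lam sp (a k) (b k) =
      mk1 lam sp (fun j => ∑ k ∈ S, a k j) (∑ k ∈ S, b k) := by
  simp only [mk1]
  rw [Finset.sum_add_distrib, map_sum, Finset.sum_comm]
  congr 1
  refine Finset.sum_congr rfl fun j _ => ?_
  rw [map_sum, Finset.sum_mul]

theorem mk1_add_lam (lam : RR V →ₐ[𝕜] W 𝕜 L) (sp : Spl V) (a : Fin sp.m → RR V) (b e : RR V) :
    mk1 lam sp a b + lam e = mk1 lam sp a (b + e) := by
  rw [mk1, mk1, map_add, add_assoc]

/-- linear functionals with prescribed values on independent vectors -/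
theorem exists_functional {K : Type*} [Field K] {E : Type*} [AddCommGroup E] [Module K E]
    {s : Type*} {v : s → E} (hv : LinearIndependent K v) (y : s → K) :
    ∃ φ : E →ₗ[K] K, ∀ i, φ (v i) = y i := by
  obtain ⟨φ, hφ⟩ := LinearMap.exists_extend ((Module.Basis.span hv).constr K y)
  refine ⟨φ, fun i => ?_⟩
  have h1 : (Module.Basis.span hv i : E) = v i := by
    rw [Module.Basis.span_apply]
  have h2 := congrArg (fun F : Submodule.span K (Set.range v) →ₗ[K] K =>
    F (Module.Basis.span hv i)) hφ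
  simp only [Module.Basis.constr_basis] at h2
  rw [← h2, ← h1]
  rfl

/-- relations between commuting first order elements lift -/
theorem rel_lift [CharZero 𝕜] (had : Function.Injective (LieAlgebra.ad 𝕜 L))
    {lam : RR V →ₐ[𝕜] W 𝕜 L}
    (hlam : ∀ v : V, lam (SymmetricAlgebra.ι 𝕜 V v) = Gam 𝕜 L (v : L)) (sp : Spl V)
    {ι : Type*} (g : ι → W 𝕜 L) (hg : ∀ i, g i ∈ L1 V)
    (hcomm : ∀ i j, g i * g j = g j * g i) {w : W 𝕜 L}
    (hw : w ∈ Algebra.adjoin 𝕜 (Set.range g)) (h : w.1 = 0) : w = 0 := by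
  classical
  choose a b hgab using fun i => exists_mk1 hlam sp (hg i)
  let K := FractionRing (RR V)
  let v : ι → (Fin sp.m → K) := fun i j => algebraMap (RR V) K (a i j)
  obtain ⟨s, hli, hmax⟩ := exists_maximal_linearIndepOn (RR V) v
  obtain ⟨ψ, hψ⟩ := comm_hom (𝕜 := 𝕜) (fun i : s => g i) (fun i j => hcomm i j)
  -- commutativity of the algebra
  have hXc : ∀ x ∈ Algebra.adjoin 𝕜 (Set.range g), ∀ y ∈ Algebra.adjoin 𝕜 (Set.range g),
      x * y = y * x := by
    have hs : ∀ x ∈ Set.range g, ∀ y ∈ Set.range g, x * y = y * x := by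
      rintro _ ⟨i, rfl⟩ _ ⟨j, rfl⟩
      exact hcomm i j
    have := Algebra.isMulCommutative_adjoin 𝕜 hs
    intro x hx y hy
    exact congrArg Subtype.val (mul_comm' (⟨x, hx⟩ : Algebra.adjoin 𝕜 (Set.range g)) ⟨y, hy⟩)
  have hmono : ∀ Q : MvPolynomial s 𝕜, ψ Q ∈ Algebra.adjoin 𝕜 (Set.range g) := by
    intro Q
    induction Q using MvPolynomial.induction_on with
    | C r =>
      have h1 : ψ (C r) = algebraMap 𝕜 (W 𝕜 L) r := AlgHom.commutes ψ r
      rw [h1]
      exact Subalgebra.algebraMap_mem _ r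
    | add p q hp hq =>
      rw [map_add]
      exact add_mem hp hq
    | mul_X p i hp =>
      rw [map_mul, hψ]
      exact mul_mem hp (Algebra.subset_adjoin ⟨i, rfl⟩)
  -- every element is, up to a denominator, a polynomial in the independent elements
  have hPsi : ∀ x ∈ Algebra.adjoin 𝕜 (Set.range g), ∃ δ : RR V, δ ≠ 0 ∧
      ∃ Q : MvPolynomial s (RR V), lam δ * x = Psi lam ψ Q := by
    intro x hx
    induction hx using Algebra.adjoin_induction with
    | mem x hx =>
      obtain ⟨i, rfl⟩ := hx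
      by_cases hi : i ∈ s
      · refine ⟨1, one_ne_zero, X ⟨i, hi⟩, ?_⟩
        rw [map_one, one_mul]
        show g i = Psi lam ψ (monomial (Finsupp.single ⟨i, hi⟩ 1) 1)
        rw [Psi_monomial, map_one, one_mul]
        exact (hψ ⟨i, hi⟩).symm
      · obtain ⟨δ, hδ, hmem⟩ := hmax i hi
        obtain ⟨c, hc, hc2⟩ := (Finsupp.mem_span_image_iff_linearCombination (RR V)).1 hmem
        rw [Finsupp.mem_supported] at hc
        have hcoef : ∀ j, δ * a i j = ∑ k ∈ c.support, c k * a k j := by
          intro j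
          have hinj : Function.Injective (algebraMap (RR V) K) := IsFractionRing.injective _ _
          apply hinj
          have h1 := congrFun hc2 j
          rw [Finsupp.linearCombination_apply, Finsupp.sum, Finset.sum_apply] at h1
          rw [map_mul, map_sum, ← Algebra.smul_def]
          refine Eq.trans ?_ (h1.symm.trans ?_)
          · rfl
          · refine Finset.sum_congr rfl fun k _ => ?_
            rw [Pi.smul_apply, map_mul, Algebra.smul_def]
        set ε : RR V := δ * b i - ∑ k ∈ c.support, c k * b k with hε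
        refine ⟨δ, hδ, ∑ k ∈ c.support, (if hk : k ∈ s then C (c k) * X ⟨k, hk⟩ else 0) + C ε,
          ?_⟩
        have h2 : Psi lam ψ (C ε) = lam ε := by
          show Psi lam ψ (monomial 0 ε) = lam ε
          rw [Psi_monomial]
          have h1 : ψ (monomial 0 1) = 1 := map_one ψ
          rw [h1, mul_one]
        have h3 : ∀ k ∈ c.support, Psi lam ψ (if hk : k ∈ s then C (c k) * X ⟨k, hk⟩ else 0) =
            lam (c k) * g k := by
          intro k hk
          have hks : k ∈ s := hc hk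
          rw [dif_pos hks, ← lam_mul_Psi]
          congr 1
          show Psi lam ψ (monomial (Finsupp.single ⟨k, hks⟩ 1) 1) = g k
          rw [Psi_monomial, map_one, one_mul]
          exact hψ ⟨k, hks⟩
        rw [map_add, map_sum, h2, Finset.sum_congr rfl h3]
        have h4 : ∀ k ∈ c.support, lam (c k) * g k =
            mk1 lam sp (fun j => c k * a k j) (c k * b k) := by
          intro k _
          rw [← hgab k, lam_mul_mk1]
        rw [Finset.sum_congr rfl h4, sum_mk1, mk1_add_lam, ← hgab i, lam_mul_mk1, hε,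
          add_sub_cancel]
        congr 1
        funext j
        exact hcoef j
    | algebraMap r =>
      refine ⟨1, one_ne_zero, C (algebraMap 𝕜 (RR V) r), ?_⟩
      rw [map_one, one_mul]
      show _ = Psi lam ψ (monomial 0 _)
      rw [Psi_monomial, AlgHom.commutes]
      have h1 : ψ (monomial 0 1) = 1 := map_one ψ
      rw [h1, mul_one]
    | add x y _ _ hx hy =>
      obtain ⟨δ, hδ, Q, hQ⟩ := hx
      obtain ⟨δ', hδ', Q', hQ'⟩ := hy
      refine ⟨δ' * δ, mul_ne_zero hδ' hδ, C δ' * Q + C δ * Q', ?_⟩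
      rw [map_add, ← lam_mul_Psi, ← lam_mul_Psi, ← hQ, ← hQ', ← mul_assoc, ← mul_assoc,
        ← map_mul, ← map_mul, mul_add, mul_comm δ δ']
    | mul x y hx' hy' hx hy =>
      obtain ⟨δ, hδ, Q, hQ⟩ := hx
      obtain ⟨δ', hδ', Q', hQ'⟩ := hy
      refine ⟨δ' * δ, mul_ne_zero hδ' hδ, Q * Q', ?_⟩
      rw [← Psi_mul lam ψ (fun β => hXc y hy' _ (hmono _)) hQ', ← hQ, map_mul]
      simp only [mul_assoc]
  obtain ⟨δ, hδ, Q, hQ⟩ := hPsi w hw
  have hQ0 : Q = 0 := by
    have h1 : eval₂ ((RingHom.fst (Sy 𝕜 L) (Ue 𝕜 L)).comp (lam : RR V →+* W 𝕜 L))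
        (fun i : s => (g i).1) Q = 0 := by
      rw [← Psi_fst lam ψ hψ, ← hQ, Prod.fst_mul, h, mul_zero]
    have hliK : LinearIndependent K (fun i : s => v i) :=
      (LinearIndependent.iff_fractionRing (RR V) K).1 hli
    have hinjK : Function.Injective (algebraMap (RR V) K) := IsFractionRing.injective _ _
    have hinf : Infinite K := by
      have h2 : Function.Injective ((algebraMap (RR V) K).comp (algebraMap 𝕜 (RR V))) :=
        RingHom.injective _
      exact Infinite.of_injective _ h2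
    have h2 : map (algebraMap (RR V) K) Q = 0 := by
      refine MvPolynomial.funext fun y => ?_
      rw [map_zero]
      obtain ⟨φ, hφ⟩ := exists_functional hliK
        (fun i : s => y i - algebraMap (RR V) K (b i))
      obtain ⟨ev, hev, hev'⟩ := exists_ev hlam sp (IsScalarTower.toAlgHom 𝕜 (RR V) K)
        (fun j => φ (Pi.single j 1))
      have h3 : ∀ i : s, ev (g i).1 = y i := by
        intro i
        rw [← hgab i, ev_mk1 sp _ _ hev hev']
        have h4 : φ (v i) = ∑ j, v i j * φ (Pi.single j 1) := by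
          conv_lhs => rw [← Finset.univ_sum_single (v i)]
          rw [map_sum]
          refine Finset.sum_congr rfl fun j _ => ?_
          rw [← smul_eq_mul, ← map_smul, ← Pi.single_smul', smul_eq_mul, mul_one]
        have h5 := hφ i
        rw [h4] at h5
        have h6 : ∑ j, (IsScalarTower.toAlgHom 𝕜 (RR V) K) (a i j) * φ (Pi.single j 1) =
            ∑ j, v i j * φ (Pi.single j 1) := rfl
        rw [h6, h5]
        exact sub_add_cancel _ _
      have h7 := congrArg ev h1
      rw [map_zero] at h7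
      have h8 := MvPolynomial.hom_eval₂ Q
        ((RingHom.fst (Sy 𝕜 L) (Ue 𝕜 L)).comp (lam : RR V →+* W 𝕜 L))
        (ev : Sy 𝕜 L →+* K) (fun i : s => (g i).1)
      have h9 : ((ev : Sy 𝕜 L →+* K).comp
          ((RingHom.fst (Sy 𝕜 L) (Ue 𝕜 L)).comp (lam : RR V →+* W 𝕜 L))) =
          algebraMap (RR V) K := RingHom.ext fun p => hev p
      have h10 : (fun i : s => (ev : Sy 𝕜 L →+* K) (g i).1) = y := funext h3
      rw [h9, h10] at h8
      rw [eval_map, ← h8]
      exact h7
    exact MvPolynomial.map_injective _ hinjK (h2.trans (map_zero _).symm)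
  have h2 : lam δ * w = 0 := by rw [hQ, hQ0, map_zero]
  refine Prod.ext h ?_
  have h3 : (lam δ).2 * w.2 = 0 := congrArg Prod.snd h2
  refine torsion_free had L0_grd (fun z hz hz1 => L0_sv hlam sp hz hz1) (lam_mem hlam δ) ?_ h3
  intro h4
  have h5 : (lam δ).1 = 0 := by
    rw [h4]
    rfl
  exact hδ (lam_fst_inj hlam sp h5)

end Pool.Agent.helper5.AS
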