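import Mathlib
import Pool.Agent.helper5.AS.Rel

/-!
# Lifting of Poisson commutative algebras generated by first order elements
-/

set_option autoImplicit false

namespace Pool.Agent.helper5.AS

open Polynomial

variable {𝕜 : Type*} [Field 𝕜] {L : Type*} [LieRing L] [LieAlgebra 𝕜 L]

/-- the elements of order at most one -/
noncomputable def FO (V : Submodule 𝕜 L) : Submodule 𝕜 (Sy 𝕜 L) :=
  Subalgebra.toSubmodule (Algebra.adjoin 𝕜 (ιS 𝕜 L '' (V : Set L))) *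
    (1 ⊔ LinearMap.range (ιS 𝕜 L))

theorem exists_L0 {V : Submodule 𝕜 L} {a : Sy 𝕜 L}
    (ha : a ∈ Algebra.adjoin 𝕜 (ιS 𝕜 L '' (V : Set L))) : ∃ w ∈ L0 V, w.1 = a := by
  induction ha using Algebra.adjoin_induction with
  | mem x hx =>
    obtain ⟨v, hv, rfl⟩ := hx
    exact ⟨Gam 𝕜 L v, Gam_mem_L0 hv, rfl⟩
  | algebraMap r => exact ⟨algebraMap 𝕜 _ r, Subalgebra.algebraMap_mem _ r, rfl⟩
  | add x y _ _ hx hy =>
    obtain ⟨w, hw, rfl⟩ := hx
    obtain ⟨w', hw', rfl⟩ := hy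
    exact ⟨w + w', add_mem hw hw', rfl⟩
  | mul x y _ _ hx hy =>
    obtain ⟨w, hw, rfl⟩ := hx
    obtain ⟨w', hw', rfl⟩ := hy
    exact ⟨w * w', mul_mem hw hw', rfl⟩

theorem L0_fst {V : Submodule 𝕜 L} {w : W 𝕜 L} (hw : w ∈ L0 V) :
    w.1 ∈ Algebra.adjoin 𝕜 (ιS 𝕜 L '' (V : Set L)) := by
  induction hw using Algebra.adjoin_induction with
  | mem x hx =>
    obtain ⟨v, hv, rfl⟩ := hx
    exact Algebra.subset_adjoin ⟨v, hv, rfl⟩
  | algebraMap r => exact Subalgebra.algebraMap_mem _ r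
  | add x y _ _ hx hy => exact add_mem hx hy
  | mul x y _ _ hx hy => exact mul_mem hx hy

theorem exists_L1 {V : Submodule 𝕜 L} {a : Sy 𝕜 L} (ha : a ∈ FO V) : ∃ w ∈ L1 V, w.1 = a := by
  refine Submodule.mul_induction_on ha ?_ ?_
  · intro p hp e he
    obtain ⟨w, hw, rfl⟩ := exists_L0 hp
    obtain ⟨w1, hw1, _, ⟨x, rfl⟩, rfl⟩ := Submodule.mem_sup.1 he
    obtain ⟨c, rfl⟩ := Submodule.mem_one.1 hw1
    refine ⟨w * (algebraMap 𝕜 _ c + Gam 𝕜 L x), ?_, rfl⟩
    refine Submodule.mul_mem_mul (M := Subalgebra.toSubmodule (L0 V)) hw ?_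
    exact add_mem ((le_sup_left : (1 : Submodule 𝕜 (W 𝕜 L)) ≤ 1 ⊔ imG 𝕜 L)
      (Submodule.mem_one.2 ⟨c, rfl⟩)) ((le_sup_right : imG 𝕜 L ≤ 1 ⊔ imG 𝕜 L) ⟨x, rfl⟩)
  · rintro _ _ ⟨w, hw, rfl⟩ ⟨w', hw', rfl⟩
    exact ⟨w + w', add_mem hw hw', rfl⟩

theorem L1_fst {V : Submodule 𝕜 L} {w : W 𝕜 L} (hw : w ∈ L1 V) : w.1 ∈ FO V := by
  refine Submodule.mul_induction_on hw ?_ ?_
  · intro p hp e he
    obtain ⟨w1, hw1, _, ⟨x, rfl⟩, rfl⟩ := Submodule.mem_sup.1 he
    obtain ⟨c, rfl⟩ := Submodule.mem_one.1 hw1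
    refine Submodule.mul_mem_mul (L0_fst hp) ?_
    exact add_mem ((le_sup_left : (1 : Submodule 𝕜 (Sy 𝕜 L)) ≤ 1 ⊔ LinearMap.range (ιS 𝕜 L))
      (Submodule.mem_one.2 ⟨c, rfl⟩))
      ((le_sup_right : LinearMap.range (ιS 𝕜 L) ≤ 1 ⊔ LinearMap.range (ιS 𝕜 L)) ⟨x, rfl⟩)
  · intro x y hx hy
    exact add_mem hx hy

/-- components of a sum of homogeneous pairs -/
theorem comp_of_sum {f : ℕ →₀ W 𝕜 L} (hf : ∀ n, f n ∈ Hm 𝕜 L n) {w : W 𝕜 L}
    (hs : (f.sum fun _ x => x) = w) (n : ℕ) : comp n w.1 = (f n).1 := by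
  rw [← hs, Finsupp.sum, Prod.fst_sum, map_sum]
  by_cases hn : n ∈ f.support
  · rw [Finset.sum_eq_single n]
    · rw [comp_of_mem (IsSymbol.mem_sym (hf n)), if_pos rfl]
    · intro m _ hm
      rw [comp_of_mem (IsSymbol.mem_sym (hf m)), if_neg (Ne.symm hm)]
    · intro h
      exact absurd hn h
  · rw [Finset.sum_eq_zero]
    · rw [Finsupp.notMem_support_iff.1 hn]
      rfl
    · intro m hm
      rw [comp_of_mem (IsSymbol.mem_sym (hf m)), if_neg]
      rintro rfl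
      exact hn hm

theorem comp_FO {V : Submodule 𝕜 L} {a : Sy 𝕜 L} (ha : a ∈ FO V) (n : ℕ) : comp n a ∈ FO V := by
  obtain ⟨w, hw, rfl⟩ := exists_L1 ha
  obtain ⟨f, hf, hs⟩ := exists_sum_of_grd (L1_grd hw)
  rw [comp_of_sum (fun n => (hf n).2) hs]
  exact L1_fst (hf n).1

/-- the general theorem -/
theorem lifts_of_first_order [CharZero 𝕜] [FiniteDimensional 𝕜 L]
    (had : Function.Injective (LieAlgebra.ad 𝕜 L)) {V : Submodule 𝕜 L}
    (hV : ∀ x : L, ∀ v ∈ V, ⁅x, v⁆ ∈ V) (hab : ∀ v ∈ V, ∀ v' ∈ V, ⁅v, v'⁆ = 0)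
    (A : Subalgebra 𝕜 (Sy 𝕜 L)) (hPC : ∀ a ∈ A, ∀ b ∈ A, pb (bL 𝕜 L) a b = 0)
    (hgr : ∀ a ∈ A, ∀ n, comp n a ∈ A)
    (hgen : A = Algebra.adjoin 𝕜 ((A : Set (Sy 𝕜 L)) ∩ (FO V : Set (Sy 𝕜 L)))) : Lifts A := by
  obtain ⟨lam, hlam⟩ := exists_lam hab
  obtain ⟨sp⟩ := exists_spl V
  set G : Set (W 𝕜 L) := {w | w ∈ L1 V ∧ w.1 ∈ A} with hG
  have hcG : ∀ w ∈ G, ∀ w' ∈ G, w * w' = w' * w := by
    rintro w ⟨hw, hwA⟩ w' ⟨hw', hwA'⟩
    have h1 : Bw w w' = 0 := L1_sv hlam sp (Bw_L1_L1 hV hab hw hw') (hPC _ hwA _ hwA')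
    refine Prod.ext (mul_comm _ _) ?_
    exact sub_eq_zero.1 (congrArg Prod.snd h1)
  have hXc : ∀ x ∈ Algebra.adjoin 𝕜 G, ∀ y ∈ Algebra.adjoin 𝕜 G, x * y = y * x := by
    have := Algebra.isMulCommutative_adjoin 𝕜 hcG
    intro x hx y hy
    exact congrArg Subtype.val (mul_comm' (⟨x, hx⟩ : Algebra.adjoin 𝕜 G) ⟨y, hy⟩)
  refine lifts_of_graph had (Algebra.adjoin 𝕜 G) ?_ ?_ ?_ A ?_
  · refine adjoin_grd ?_
    rintro w ⟨hw, hwA⟩
    obtain ⟨f, hf, hs⟩ := exists_sum_of_grd (L1_grd hw)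
    rw [← hs]
    refine sum_mem fun n _ => ?_
    refine mem_grd_of ?_ (hf n).2
    refine Algebra.subset_adjoin ⟨(hf n).1, ?_⟩
    rw [← comp_of_sum (fun n => (hf n).2) hs]
    exact hgr _ hwA n
  · intro w hw h
    refine rel_lift had hlam sp (fun i : G => (i : W 𝕜 L)) (fun i => i.2.1)
      (fun i j => hcG _ i.2 _ j.2) ?_ h
    rwa [Subtype.range_coe]
  · intro w hw w' hw'
    exact congrArg Prod.snd (hXc w hw w' hw')
  · intro a
    constructor
    · intro ha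
      have h1 : A ≤ (Algebra.adjoin 𝕜 G).map (AlgHom.fst 𝕜 (Sy 𝕜 L) (Ue 𝕜 L)) := by
        conv_lhs => rw [hgen]
        rw [Algebra.adjoin_le_iff]
        rintro b ⟨hb, hb'⟩
        obtain ⟨w, hw, rfl⟩ := exists_L1 hb'
        exact ⟨w, Algebra.subset_adjoin ⟨hw, hb⟩, rfl⟩
      obtain ⟨w, hw, h2⟩ := h1 ha
      exact ⟨w, hw, h2⟩
    · rintro ⟨w, hw, rfl⟩
      have h1 : Algebra.adjoin 𝕜 G ≤ A.comap (AlgHom.fst 𝕜 (Sy 𝕜 L) (Ue 𝕜 L)) := by
        rw [Algebra.adjoin_le_iff]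
        rintro w ⟨_, hw⟩
        exact hw
      exact h1 hw

/-! ## shift algebras -/

theorem shift_ι (ξ : L →ₗ[𝕜] 𝕜) (x : L) :
    shift ξ (ιS 𝕜 L x) = C (ιS 𝕜 L x) + C (algebraMap 𝕜 (Sy 𝕜 L) (ξ x)) * X :=
  expand_ι _ x

theorem shift_coeff_mem (ξ : L →ₗ[𝕜] 𝕜) {m : ℕ} {F : Sy 𝕜 L} (hF : F ∈ imS 𝕜 L ^ m) :
    (∀ k j, k + j = m → (shift ξ F).coeff k ∈ imS 𝕜 L ^ j) ∧
      ∀ k, m < k → (shift ξ F).coeff k = 0 := by
  induction m generalizing F with
  | zero =>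
    rw [pow_zero] at hF
    obtain ⟨c, rfl⟩ := Submodule.mem_one.1 hF
    have h1 : shift ξ (algebraMap 𝕜 (Sy 𝕜 L) c) = C (algebraMap 𝕜 (Sy 𝕜 L) c) :=
      AlgHom.commutes _ c
    rw [h1]
    constructor
    · intro k j hkj
      have hk : k = 0 := by omega
      have hj : j = 0 := by omega
      rw [hk, hj, coeff_C_zero, pow_zero]
      exact Submodule.mem_one.2 ⟨c, rfl⟩
    · intro k hk
      exact coeff_C_of_ne_zero (by omega)
  | succ m ih =>
    rw [pow_succ] at hF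
    refine Submodule.mul_induction_on hF ?_ ?_
    · rintro a ha _ ⟨x, rfl⟩
      obtain ⟨ih1, ih2⟩ := ih ha
      have h1 : ∀ k, (shift ξ (a * ιS 𝕜 L x)).coeff k = (shift ξ a).coeff k * ιS 𝕜 L x +
          (shift ξ a * X).coeff k * algebraMap 𝕜 (Sy 𝕜 L) (ξ x) := by
        intro k
        rw [map_mul, shift_ι, mul_add, coeff_add, coeff_mul_C, mul_comm (C _) X, ← mul_assoc,
          coeff_mul_C]
      constructor
      · intro k j hkj
        show (shift ξ (a * ιS 𝕜 L x)).coeff k ∈ _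
        rw [h1]
        refine add_mem ?_ ?_
        · by_cases hk : k ≤ m
          · obtain ⟨j', rfl⟩ : ∃ j', j = j' + 1 := ⟨j - 1, by omega⟩
            rw [pow_succ]
            exact Submodule.mul_mem_mul (ih1 k j' (by omega)) ⟨x, rfl⟩
          · rw [ih2 k (by omega), zero_mul]
            exact zero_mem _
        · rw [mul_comm, ← Algebra.smul_def]
          refine Submodule.smul_mem _ _ ?_
          cases k with
          | zero =>
            rw [coeff_mul_X_zero]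
            exact zero_mem _
          | succ k =>
            rw [coeff_mul_X]
            exact ih1 k j (by omega)
      · intro k hk
        show (shift ξ (a * ιS 𝕜 L x)).coeff k = 0
        rw [h1]
        obtain ⟨k', rfl⟩ : ∃ k', k = k' + 1 := ⟨k - 1, by omega⟩
        rw [coeff_mul_X, ih2 _ (by omega), ih2 _ (by omega), zero_mul, zero_mul, add_zero]
    · rintro a b ⟨ha1, ha2⟩ ⟨hb1, hb2⟩
      constructor
      · intro k j hkj
        rw [map_add, coeff_add]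
        exact add_mem (ha1 k j hkj) (hb1 k j hkj)
      · intro k hk
        rw [map_add, coeff_add, ha2 k hk, hb2 k hk, add_zero]

theorem comp_shift_coeff (ξ : L →ₗ[𝕜] 𝕜) (F : Sy 𝕜 L) (k n : ℕ) :
    comp n ((shift ξ F).coeff k) = (shift ξ (comp (n + k) F)).coeff k := by
  have h0 : ∀ m, comp n ((shift ξ (comp m F)).coeff k) =
      if m = n + k then (shift ξ (comp m F)).coeff k else 0 := by
    intro m
    obtain ⟨h1, h2⟩ := shift_coeff_mem ξ (comp_mem m F)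
    by_cases hk : k ≤ m
    · rw [comp_of_mem (h1 k (m - k) (by omega))]
      by_cases h3 : m = n + k
      · rw [if_pos h3, if_pos (by omega)]
      · rw [if_neg h3, if_neg (by omega)]
    · rw [h2 k (by omega), map_zero, ite_self]
  conv_lhs => rw [← sum_comp F]
  rw [map_sum, finsetSum_coeff, map_sum, Finset.sum_congr rfl fun m _ => h0 m,
    Finset.sum_ite_eq']
  split_ifs with h3
  · rfl
  · rw [Finset.mem_range, not_lt] at h3
    have h4 : comp (n + k) F = 0 := by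
      rw [comp_apply]
      exact coeff_eq_zero_of_natDegree_lt (by omega)
    rw [h4, map_zero, coeff_zero]

theorem adS_mem (x : L) {m : ℕ} {F : Sy 𝕜 L} (hF : F ∈ imS 𝕜 L ^ m) :
    adS x F ∈ imS 𝕜 L ^ m := by
  rw [adS_eq]
  induction m generalizing F with
  | zero =>
    rw [pow_zero] at hF
    obtain ⟨c, rfl⟩ := Submodule.mem_one.1 hF
    rw [Derivation.map_algebraMap]
    exact zero_mem _
  | succ m ih =>
    rw [pow_succ] at hF
    refine Submodule.mul_induction_on hF ?_ ?_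
    · rintro a ha _ ⟨y, rfl⟩
      have h1 : pb (bL 𝕜 L) (ιS 𝕜 L x) (a * ιS 𝕜 L y) =
          a * ιS 𝕜 L ⁅x, y⁆ + pb (bL 𝕜 L) (ιS 𝕜 L x) a * ιS 𝕜 L y := by
        rw [Derivation.leibniz, pb_ι_ι, bL_apply, smul_eq_mul, smul_eq_mul,
          mul_comm (ιS 𝕜 L y)]
      show pb (bL 𝕜 L) (ιS 𝕜 L x) (a * ιS 𝕜 L y) ∈ _
      rw [h1, pow_succ]
      exact add_mem (Submodule.mul_mem_mul ha ⟨_, rfl⟩)
        (Submodule.mul_mem_mul (ih ha) ⟨y, rfl⟩)
    · intro a b ha hb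
      rw [map_add]
      exact add_mem ha hb

theorem comp_adS (x : L) (F : Sy 𝕜 L) (n : ℕ) : comp n (adS x F) = adS x (comp n F) := by
  have h0 : ∀ m, comp n (adS x (comp m F)) = if m = n then adS x (comp m F) else 0 := by
    intro m
    rw [comp_of_mem (adS_mem x (comp_mem m F))]
    simp only [eq_comm]
  conv_lhs => rw [← sum_comp F]
  rw [adS_eq, map_sum, map_sum]
  have h1 : ∀ m ∈ Finset.range ((scal F).natDegree + 1),
      comp n (pb (bL 𝕜 L) (ιS 𝕜 L x) (comp m F)) = if m = n then adS x (comp m F) else 0 := by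
    intro m _
    rw [← adS_eq, h0]
  rw [Finset.sum_congr rfl h1, Finset.sum_ite_eq']
  split_ifs with h3
  · rfl
  · rw [Finset.mem_range, not_lt] at h3
    have h4 : comp n F = 0 := by
      rw [comp_apply]
      exact coeff_eq_zero_of_natDegree_lt (by omega)
    rw [h4, adS_eq, map_zero]

theorem comp_centre {F : Sy 𝕜 L} (hF : F ∈ centre 𝕜 L) (n : ℕ) : comp n F ∈ centre 𝕜 L := by
  intro x
  rw [← comp_adS, hF x, map_zero]

/-- the coefficients of the shift of an element of order at most one -/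
theorem shift_FO {V : Submodule 𝕜 L} (ξ : L →ₗ[𝕜] 𝕜) {F : Sy 𝕜 L} (hF : F ∈ FO V) (n : ℕ) :
    (shift ξ F).coeff n ∈ FO V := by
  have h0 : ∀ a ∈ Algebra.adjoin 𝕜 (ιS 𝕜 L '' (V : Set L)), ∀ n,
      (shift ξ a).coeff n ∈ Algebra.adjoin 𝕜 (ιS 𝕜 L '' (V : Set L)) := by
    intro a ha
    induction ha using Algebra.adjoin_induction with
    | mem x hx =>
      intro n
      obtain ⟨v, hv, rfl⟩ := hx
      rw [shift_ι, coeff_add, coeff_C_mul, coeff_C, coeff_X]
      refine add_mem ?_ (mul_mem (Subalgebra.algebraMap_mem _ _) ?_)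
      · split_ifs
        · exact Algebra.subset_adjoin ⟨v, hv, rfl⟩
        · exact zero_mem _
      · split_ifs
        · exact one_mem _
        · exact zero_mem _
    | algebraMap r =>
      intro n
      have h1 : shift ξ (algebraMap 𝕜 (Sy 𝕜 L) r) = C (algebraMap 𝕜 (Sy 𝕜 L) r) :=
        AlgHom.commutes _ r
      rw [h1, coeff_C]
      split_ifs
      · exact Subalgebra.algebraMap_mem _ r
      · exact zero_mem _
    | add x y _ _ hx hy =>
      intro n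
      rw [map_add, coeff_add]
      exact add_mem (hx n) (hy n)
    | mul x y _ _ hx hy =>
      intro n
      rw [map_mul, coeff_mul]
      exact sum_mem fun p _ => mul_mem (hx p.1) (hy p.2)
  refine Submodule.mul_induction_on hF ?_ ?_
  · intro a ha e he
    obtain ⟨w1, hw1, _, ⟨x, rfl⟩, rfl⟩ := Submodule.mem_sup.1 he
    obtain ⟨c, rfl⟩ := Submodule.mem_one.1 hw1
    rw [map_mul, coeff_mul]
    refine sum_mem fun p _ => Submodule.mul_mem_mul (h0 a ha p.1) ?_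
    have h1 : shift ξ (algebraMap 𝕜 (Sy 𝕜 L) c) = C (algebraMap 𝕜 (Sy 𝕜 L) c) :=
      AlgHom.commutes _ c
    rw [map_add, h1, shift_ι, coeff_add, coeff_add, coeff_C_mul, coeff_C, coeff_C, coeff_X]
    refine add_mem (Submodule.mem_sup_left ?_) (add_mem (Submodule.mem_sup_right ?_)
      (Submodule.mem_sup_left ?_))
    · split_ifs
      · exact Submodule.mem_one.2 ⟨c, rfl⟩
      · exact zero_mem _
    · split_ifs
      · exact ⟨x, rfl⟩
      · exact zero_mem _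
    · split_ifs
      · rw [mul_one]
        exact Submodule.mem_one.2 ⟨_, rfl⟩
      · rw [mul_zero]
        exact zero_mem _
  · intro a b ha hb
    rw [map_add, coeff_add]
    exact add_mem ha hb

/-- the argument shift algebra of a graded subalgebra of the Poisson centre generated by
elements of order at most one lifts -/
theorem lifts_shift [CharZero 𝕜] [FiniteDimensional 𝕜 L]
    (had : Function.Injective (LieAlgebra.ad 𝕜 L)) {V : Submodule 𝕜 L}
    (hV : ∀ x : L, ∀ v ∈ V, ⁅x, v⁆ ∈ V) (hab : ∀ v ∈ V, ∀ v' ∈ V, ⁅v, v'⁆ = 0)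
    (ξ : L →ₗ[𝕜] 𝕜) (Z : Subalgebra 𝕜 (Sy 𝕜 L)) (hZ : (Z : Set (Sy 𝕜 L)) ⊆ centre 𝕜 L)
    (hgr : ∀ F ∈ Z, ∀ n, comp n F ∈ Z)
    (hgen : Z ≤ Algebra.adjoin 𝕜 ((Z : Set (Sy 𝕜 L)) ∩ (FO V : Set (Sy 𝕜 L)))) :
    Lifts (shiftAlg ξ (Z : Set (Sy 𝕜 L))) := by
  set A := shiftAlg ξ (Z : Set (Sy 𝕜 L)) with hA
  have hmem : ∀ F ∈ Z, ∀ n, (shift ξ F).coeff n ∈ A := fun F hF n =>
    Algebra.subset_adjoin ⟨F, hF, n, rfl⟩
  refine lifts_of_first_order had hV hab A ?_ ?_ ?_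
  · intro a ha b hb
    refine adjoin_pb (bL 𝕜 L) ?_ ha hb
    rintro _ ⟨F, hF, m, rfl⟩ _ ⟨F', hF', n, rfl⟩
    exact mf_coeff ξ (hZ hF) (hZ hF') m n
  · intro a ha
    rw [hA, shiftAlg] at ha
    induction ha using Algebra.adjoin_induction with
    | mem x hx =>
      obtain ⟨F, hF, k, rfl⟩ := hx
      intro n
      rw [comp_shift_coeff]
      exact hmem _ (hgr F hF _) k
    | algebraMap r =>
      intro n
      have h1 : algebraMap 𝕜 (Sy 𝕜 L) r ∈ imS 𝕜 L ^ 0 := by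
        rw [pow_zero]
        exact Submodule.mem_one.2 ⟨r, rfl⟩
      rw [comp_of_mem h1]
      split_ifs
      · exact Subalgebra.algebraMap_mem _ r
      · exact zero_mem _
    | add x y _ _ hx hy =>
      intro n
      rw [map_add]
      exact add_mem (hx n) (hy n)
    | mul x y _ _ hx hy =>
      intro n
      rw [comp_apply, map_mul, coeff_mul]
      exact sum_mem fun p _ => mul_mem (hx p.1) (hy p.2)
  · apply le_antisymm
    · have h1 : ∀ F ∈ Algebra.adjoin 𝕜 ((Z : Set (Sy 𝕜 L)) ∩ (FO V : Set (Sy 𝕜 L))), ∀ n,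
          (shift ξ F).coeff n ∈
            Algebra.adjoin 𝕜 ((A : Set (Sy 𝕜 L)) ∩ (FO V : Set (Sy 𝕜 L))) := by
        intro F hF
        induction hF using Algebra.adjoin_induction with
        | mem x hx =>
          intro n
          exact Algebra.subset_adjoin ⟨hmem x hx.1 n, shift_FO ξ hx.2 n⟩
        | algebraMap r =>
          intro n
          have h1 : shift ξ (algebraMap 𝕜 (Sy 𝕜 L) r) = C (algebraMap 𝕜 (Sy 𝕜 L) r) :=
            AlgHom.commutes _ r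
          rw [h1, coeff_C]
          split_ifs
          · exact Subalgebra.algebraMap_mem _ r
          · exact zero_mem _
        | add x y _ _ hx hy =>
          intro n
          rw [map_add, coeff_add]
          exact add_mem (hx n) (hy n)
        | mul x y _ _ hx hy =>
          intro n
          rw [map_mul, coeff_mul]
          exact sum_mem fun p _ => mul_mem (hx p.1) (hy p.2)
      conv_lhs => rw [hA, shiftAlg]
      rw [Algebra.adjoin_le_iff]
      rintro _ ⟨F, hF, n, rfl⟩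
      exact h1 F (hgen hF) n
    · rw [Algebra.adjoin_le_iff]
      exact Set.inter_subset_left

end Pool.Agent.helper5.AS
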