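import Mathlib
import Pool.Agent.helper5.AS.ThmA
import Pool.Agent.helper5.AS.Stmt

/-!
# The `Z_2`-contraction of a semisimple Lie algebra
-/

set_option autoImplicit false

namespace Pool.Agent.helper5.ASQ

variable {𝕜 : Type*} [Field 𝕜] {g : Type*} [LieRing g] [LieAlgebra 𝕜 g] (θ : Invol 𝕜 g)

theorem even_add (x y : g) : even θ (x + y) = even θ x + even θ y := by
  rw [even, even, even, map_add, ← smul_add, add_add_add_comm]

theorem oddc_add (x y : g) : oddc θ (x + y) = oddc θ x + oddc θ y := by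
  rw [oddc, oddc, oddc, map_add, ← smul_add, add_sub_add_comm]

theorem even_smul (c : 𝕜) (x : g) : even θ (c • x) = c • even θ x := by
  rw [even, even, map_smul, ← smul_add, smul_comm]

theorem oddc_smul (c : 𝕜) (x : g) : oddc θ (c • x) = c • oddc θ x := by
  rw [oddc, oddc, map_smul, ← smul_sub, smul_comm]

theorem even_zero : even θ (0 : g) = 0 := by rw [even, map_zero, add_zero, smul_zero]

theorem oddc_zero : oddc θ (0 : g) = 0 := by rw [oddc, map_zero, sub_zero, smul_zero]

theorem even_add_oddc [CharZero 𝕜] (x : g) : even θ x + oddc θ x = x := by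
  rw [even, oddc, ← smul_add]
  have h : x + θ.hom x + (x - θ.hom x) = (2 : 𝕜) • x := by rw [two_smul]; abel
  rw [h, smul_smul, inv_mul_cancel₀ two_ne_zero, one_smul]

theorem hom_even (x : g) : θ.hom (even θ x) = even θ x := by
  rw [even, map_smul, map_add, θ.hom_hom, add_comm]

theorem hom_oddc (x : g) : θ.hom (oddc θ x) = - oddc θ x := by
  rw [oddc, map_smul, map_sub, θ.hom_hom, ← smul_neg, neg_sub]

theorem even_of_fix [CharZero 𝕜] {x : g} (h : θ.hom x = x) : even θ x = x := by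
  rw [even, h, ← two_smul 𝕜 x, smul_smul, inv_mul_cancel₀ two_ne_zero, one_smul]

theorem oddc_of_fix {x : g} (h : θ.hom x = x) : oddc θ x = 0 := by
  rw [oddc, h, sub_self, smul_zero]

theorem even_of_neg {x : g} (h : θ.hom x = - x) : even θ x = 0 := by
  rw [even, h, add_neg_cancel, smul_zero]

theorem oddc_of_neg [CharZero 𝕜] {x : g} (h : θ.hom x = - x) : oddc θ x = x := by
  rw [oddc, h, sub_neg_eq_add, ← two_smul 𝕜 x, smul_smul, inv_mul_cancel₀ two_ne_zero,
    one_smul]

theorem hom_lie_aux (x y : g) : θ.hom ⁅even θ x, even θ y⁆ = ⁅even θ x, even θ y⁆ ∧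
    θ.hom ⁅even θ x, oddc θ y⁆ = - ⁅even θ x, oddc θ y⁆ ∧
    θ.hom ⁅oddc θ x, even θ y⁆ = - ⁅oddc θ x, even θ y⁆ := by
  refine ⟨?_, ?_, ?_⟩
  · rw [LieHom.map_lie, hom_even, hom_even]
  · rw [LieHom.map_lie, hom_even, hom_oddc, lie_neg]
  · rw [LieHom.map_lie, hom_even, hom_oddc, neg_lie]

theorem even_brk [CharZero 𝕜] (x y : g) : even θ (brk θ x y) = ⁅even θ x, even θ y⁆ := by
  obtain ⟨h1, h2, h3⟩ := hom_lie_aux θ x y
  rw [brk, even_add, even_add, even_of_fix θ h1, even_of_neg θ h2, even_of_neg θ h3, add_zero,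
    add_zero]

theorem oddc_brk [CharZero 𝕜] (x y : g) :
    oddc θ (brk θ x y) = ⁅even θ x, oddc θ y⁆ + ⁅oddc θ x, even θ y⁆ := by
  obtain ⟨h1, h2, h3⟩ := hom_lie_aux θ x y
  rw [brk, oddc_add, oddc_add, oddc_of_fix θ h1, oddc_of_neg θ h2, oddc_of_neg θ h3, zero_add]

theorem brk_jacobi [CharZero 𝕜] (x y z : g) :
    brk θ x (brk θ y z) = brk θ (brk θ x y) z + brk θ y (brk θ x z) := by
  rw [brk, even_brk, oddc_brk, brk.eq_def θ (brk θ x y), even_brk, oddc_brk, brk.eq_def θ y,
    even_brk, oddc_brk, lie_add, lie_add, add_lie,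
    leibniz_lie (even θ x) (even θ y) (even θ z), leibniz_lie (even θ x) (even θ y) (oddc θ z),
    leibniz_lie (even θ x) (oddc θ y) (even θ z), leibniz_lie (oddc θ x) (even θ y) (even θ z)]
  abel

theorem brk_add_left (x y z : g) : brk θ (x + y) z = brk θ x z + brk θ y z := by
  simp only [brk, even_add, oddc_add, add_lie]
  abel

theorem brk_add_right (x y z : g) : brk θ x (y + z) = brk θ x y + brk θ x z := by
  simp only [brk, even_add, oddc_add, lie_add]
  abel

theorem brk_self (x : g) : brk θ x x = 0 := by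
  rw [brk, lie_self, zero_add, ← lie_skew, neg_add_cancel]

theorem brk_smul_right (c : 𝕜) (x y : g) : brk θ x (c • y) = c • brk θ x y := by
  simp only [brk, even_smul, oddc_smul, lie_smul, smul_add]

end Pool.Agent.helper5.ASQ

namespace Pool.Agent.helper5.AS

open Pool.Agent.helper5.ASQ (Invol odd even oddc brk even_of_neg oddc_of_neg hom_even
  hom_oddc even_brk oddc_brk even_zero oddc_zero even_add_oddc IsContraction)

variable {𝕜 : Type*} [Field 𝕜] [CharZero 𝕜] {g : Type*} [LieRing g] [LieAlgebra 𝕜 g]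
variable (θ : Invol 𝕜 g)

/-- the involution as an equivalence -/
noncomputable def invE : g ≃ₗ⁅𝕜⁆ g :=
  { θ.hom with
    invFun := θ.hom
    left_inv := θ.hom_hom
    right_inv := θ.hom_hom }

omit [CharZero 𝕜] in
theorem invE_apply (x : g) : invE θ x = θ.hom x := rfl

/-- the centre of the contraction is trivial -/
theorem centre_zero [FiniteDimensional 𝕜 g] [LieAlgebra.IsSemisimple 𝕜 g] (x : g)
    (hx' : ∀ y : g, brk θ x y = 0) : x = 0 := by
  have h0 : ∀ y, ⁅even θ x, even θ y⁆ = 0 := by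
    intro y
    rw [← even_brk, hx', even_zero]
  have h1 : ∀ y, ⁅even θ x, oddc θ y⁆ + ⁅oddc θ x, even θ y⁆ = 0 := by
    intro y
    rw [← oddc_brk, hx', oddc_zero]
  have h01 : ∀ y, ⁅even θ x, oddc θ y⁆ = 0 := by
    intro y
    have h := h1 (oddc θ y)
    rwa [even_of_neg θ (hom_oddc θ y), lie_zero, add_zero, oddc_of_neg θ (hom_oddc θ y)] at h
  have h10 : ∀ y, ⁅oddc θ x, even θ y⁆ = 0 := by
    intro y
    have h := h1 y
    rwa [h01, zero_add] at h
  -- the even part is central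
  have hc0 : even θ x = 0 := by
    have hz : even θ x ∈ LieAlgebra.center 𝕜 g := by
      rw [LieModule.mem_maxTrivSubmodule]
      intro y
      rw [← lie_skew, ← even_add_oddc θ y, lie_add, h0, h01, add_zero, neg_zero]
    rwa [LieAlgebra.center_eq_bot, LieSubmodule.mem_bot] at hz
  -- the odd part is central
  have hκ : ∀ a b, θ.hom a = a → θ.hom b = -b → killingForm 𝕜 g a b = 0 := by
    intro a b ha hb
    have h := LieAlgebra.killingForm_of_equiv_apply (R := 𝕜) (invE θ) a b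
    rw [invE_apply, invE_apply, ha, hb, map_neg] at h
    exact self_eq_neg.1 h.symm
  have hc1' : ∀ y, ⁅oddc θ x, oddc θ y⁆ = 0 := by
    intro y
    have hθ : θ.hom ⁅oddc θ x, oddc θ y⁆ = ⁅oddc θ x, oddc θ y⁆ := by
      rw [LieHom.map_lie, hom_oddc, hom_oddc, lie_neg, neg_lie, neg_neg]
    have hall : ∀ z, killingForm 𝕜 g ⁅oddc θ x, oddc θ y⁆ z = 0 := by
      intro z
      have h2 : killingForm 𝕜 g ⁅oddc θ x, oddc θ y⁆ (oddc θ z) = 0 :=
        hκ _ _ hθ (hom_oddc θ z)
      have h3 : killingForm 𝕜 g ⁅oddc θ x, oddc θ y⁆ (even θ z) = 0 := by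
        rw [← lie_skew, map_neg, LinearMap.neg_apply]
        have h4 := LieModule.traceForm_apply_lie_apply 𝕜 g g (oddc θ y) (oddc θ x) (even θ z)
        have h5 : killingForm 𝕜 g ⁅oddc θ y, oddc θ x⁆ (even θ z) =
            killingForm 𝕜 g (oddc θ y) ⁅oddc θ x, even θ z⁆ := h4
        rw [h5, h10, map_zero, neg_zero]
      rw [← even_add_oddc θ z, map_add, h3, h2, add_zero]
    have hnd := (LieAlgebra.IsKilling.killingForm_nondegenerate 𝕜 g).1
    exact hnd _ hall
  have hc1 : oddc θ x = 0 := by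
    have hz : oddc θ x ∈ LieAlgebra.center 𝕜 g := by
      rw [LieModule.mem_maxTrivSubmodule]
      intro y
      rw [← lie_skew, ← even_add_oddc θ y, lie_add, h10, hc1', add_zero, neg_zero]
    rwa [LieAlgebra.center_eq_bot, LieSubmodule.mem_bot] at hz
  rw [← even_add_oddc θ x, hc0, hc1, add_zero]

section

variable {k : Type*} [LieRing k] [LieAlgebra 𝕜 k] {e : g ≃ₗ[𝕜] k}

omit [CharZero 𝕜] in
theorem mem_odd {v : k} : v ∈ odd θ e ↔ ∃ y : g, θ.hom y = -y ∧ e y = v := by
  constructor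
  · rintro ⟨y, hy, rfl⟩
    have h1 : y + θ.hom y = 0 := hy
    exact ⟨y, eq_neg_of_add_eq_zero_right h1, rfl⟩
  · rintro ⟨y, hy, rfl⟩
    refine ⟨y, ?_, rfl⟩
    show y + θ.hom y = 0
    rw [hy, add_neg_cancel]

omit [CharZero 𝕜] in
/-- `g_1` is an ideal of the contraction -/
theorem odd_ideal (he : IsContraction θ e) (x : k) {v : k} (hv : v ∈ odd θ e) :
    ⁅x, v⁆ ∈ odd θ e := by
  obtain ⟨y, hy, rfl⟩ := (mem_odd θ).1 hv
  obtain ⟨x, rfl⟩ := e.surjective x
  rw [he]
  refine (mem_odd θ).2 ⟨brk θ x y, ?_, rfl⟩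
  rw [brk, even_of_neg θ hy, lie_zero, lie_zero, zero_add, add_zero, LieHom.map_lie, hom_even,
    hom_oddc, lie_neg]

omit [CharZero 𝕜] in
/-- `g_1` is abelian in the contraction -/
theorem odd_abelian (he : IsContraction θ e) {v v' : k} (hv : v ∈ odd θ e)
    (hv' : v' ∈ odd θ e) : ⁅v, v'⁆ = 0 := by
  obtain ⟨y, hy, rfl⟩ := (mem_odd θ).1 hv
  obtain ⟨y', hy', rfl⟩ := (mem_odd θ).1 hv'
  rw [he, brk, even_of_neg θ hy, even_of_neg θ hy', lie_zero, zero_lie, lie_zero, add_zero,
    add_zero, map_zero]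

/-- the adjoint representation of the contraction of a semisimple Lie algebra is injective -/
theorem ad_injective [FiniteDimensional 𝕜 g] [LieAlgebra.IsSemisimple 𝕜 g]
    (he : IsContraction θ e) : Function.Injective (LieAlgebra.ad 𝕜 k) := by
  rw [injective_iff_map_eq_zero]
  intro x hx
  obtain ⟨x, rfl⟩ := e.surjective x
  have h : x = 0 := centre_zero θ x fun y => by
    have h1 : ⁅e x, e y⁆ = 0 := congrArg (fun F : Module.End 𝕜 k => F (e y)) hx
    rw [he] at h1
    exact e.injective (h1.trans (map_zero e).symm)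
  rw [h, map_zero]

end

end Pool.Agent.helper5.AS
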