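import Mathlib
import Pool.Agent.helper5.AS.Contr

/-!
# The short definitions and the working definitions agree
-/

set_option autoImplicit false

namespace Pool.Agent.helper5.AS

open Polynomial

variable {𝕜 : Type*} [Field 𝕜] {L : Type*} [LieRing L] [LieAlgebra 𝕜 L]

/-- identification of the two versions of the symmetric algebra -/
noncomputable def toQ : Sy 𝕜 L ≃ₐ[𝕜] ASQ.Sy 𝕜 L := AlgEquiv.refl

theorem toQ_apply (a : Sy 𝕜 L) : toQ a = (a : ASQ.Sy 𝕜 L) := rfl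

theorem line_apply (i φ : L →ₗ[𝕜] Sy 𝕜 L) (y : L) : ASQ.line i φ y = C (i y) + C (φ y) * X := by
  show monomial 0 (i y) + monomial 1 (φ y) = _
  rw [monomial_zero_left, C_mul_X_eq_monomial]

theorem expand_eq (φ : L →ₗ[𝕜] Sy 𝕜 L) :
    SymmetricAlgebra.lift (ASQ.line (ιS 𝕜 L) φ) = expand φ := by
  refine SymmetricAlgebra.algHom_ext (LinearMap.ext fun y => ?_)
  show SymmetricAlgebra.lift (ASQ.line (ιS 𝕜 L) φ) (ιS 𝕜 L y) = expand φ (ιS 𝕜 L y)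
  rw [SymmetricAlgebra.lift_ι_apply, line_apply, expand_ι]

theorem centreQ (F : Sy 𝕜 L) : (F : ASQ.Sy 𝕜 L) ∈ ASQ.centre 𝕜 L ↔ F ∈ centre 𝕜 L := by
  refine forall_congr' fun x => ?_
  have h := expand_eq (ιS 𝕜 L ∘ₗ (LieAlgebra.ad 𝕜 L x : L →ₗ[𝕜] L))
  show ((SymmetricAlgebra.lift (ASQ.line (ιS 𝕜 L)
    (ιS 𝕜 L ∘ₗ (LieAlgebra.ad 𝕜 L x : L →ₗ[𝕜] L)))) F).coeff 1 = 0 ↔ adS x F = 0
  rw [h]
  rfl

theorem low_eq (n : ℕ) : ASQ.low (Submodule.map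
    (UniversalEnvelopingAlgebra.mkAlgHom 𝕜 L).toLinearMap
    (LinearMap.range (TensorAlgebra.ι 𝕜 : L →ₗ[𝕜] TensorAlgebra 𝕜 L))) n = lowU 𝕜 L n := by
  rw [← LinearMap.range_comp]
  cases n with
  | zero => rfl
  | succ n => rfl

theorem symbolQ (n : ℕ) (a : Sy 𝕜 L) (u : Ue 𝕜 L) :
    ASQ.Symbol (LinearMap.range (TensorAlgebra.ι 𝕜 : L →ₗ[𝕜] TensorAlgebra 𝕜 L))
      (SymmetricAlgebra.algHom 𝕜 L) (UniversalEnvelopingAlgebra.mkAlgHom 𝕜 L) n a u ↔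
      IsSymbol n a u := by
  unfold ASQ.Symbol IsSymbol
  rw [low_eq]

theorem liftQ {A : Subalgebra 𝕜 (Sy 𝕜 L)} (h : Lifts A) :
    ASQ.Lift (LinearMap.range (TensorAlgebra.ι 𝕜 : L →ₗ[𝕜] TensorAlgebra 𝕜 L))
      (SymmetricAlgebra.algHom 𝕜 L) (UniversalEnvelopingAlgebra.mkAlgHom 𝕜 L) A := by
  obtain ⟨B, hB, hB'⟩ := h
  refine ⟨B, hB, ?_⟩
  rw [← hB', grSub]
  congr 1
  ext a
  constructor
  · rintro ⟨n, u, hu, h⟩
    exact ⟨n, u, hu, (symbolQ n a u).1 h⟩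
  · rintro ⟨n, u, hu, h⟩
    exact ⟨n, u, hu, (symbolQ n a u).2 h⟩

theorem liftsQ {A : Subalgebra 𝕜 (Sy 𝕜 L)} (h : Lifts A) :
    ASQ.Lifts (A : Subalgebra 𝕜 (ASQ.Sy 𝕜 L)) := liftQ h

theorem shiftAlgQ (ξ : L →ₗ[𝕜] 𝕜) (Z : Set (Sy 𝕜 L)) :
    ASQ.shiftAlg ξ (Z : Set (ASQ.Sy 𝕜 L)) = (shiftAlg ξ Z : Subalgebra 𝕜 (Sy 𝕜 L)) := by
  have h := expand_eq (Algebra.linearMap 𝕜 (Sy 𝕜 L) ∘ₗ ξ)
  show Algebra.adjoin 𝕜 {c | ∃ F ∈ Z, ∃ n : ℕ, c = ((SymmetricAlgebra.lift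
    (ASQ.line (ιS 𝕜 L) (Algebra.linearMap 𝕜 (Sy 𝕜 L) ∘ₗ ξ))) F).coeff n} = _
  rw [h]
  rfl

theorem centreQ_set : ASQ.centre 𝕜 L = (centre 𝕜 L : Set (Sy 𝕜 L)) :=
  Set.ext fun F => centreQ F

/-- the subalgebra generated by the central elements of order at most one -/
noncomputable def fc (V : Submodule 𝕜 L) : Subalgebra 𝕜 (Sy 𝕜 L) :=
  Algebra.adjoin 𝕜 {F | F ∈ centre 𝕜 L ∧ F ∈ FO V}

theorem firstCentreQ (V : Submodule 𝕜 L) :
    ASQ.firstCentre V = (fc V : Subalgebra 𝕜 (Sy 𝕜 L)) := by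
  have h : {F : Sy 𝕜 L | F ∈ ASQ.centre 𝕜 L ∧ F ∈ FO V} =
      {F : Sy 𝕜 L | F ∈ centre 𝕜 L ∧ F ∈ FO V} := by
    ext F
    exact and_congr_left fun _ => centreQ F
  show Algebra.adjoin 𝕜 {F : Sy 𝕜 L | F ∈ ASQ.centre 𝕜 L ∧ F ∈ FO V} = _
  rw [h]
  rfl

/-- the argument shift algebra of `fc V` lifts -/
theorem lifts_fc [CharZero 𝕜] [FiniteDimensional 𝕜 L]
    (had : Function.Injective (LieAlgebra.ad 𝕜 L)) {V : Submodule 𝕜 L}
    (hV : ∀ x : L, ∀ v ∈ V, ⁅x, v⁆ ∈ V) (hab : ∀ v ∈ V, ∀ v' ∈ V, ⁅v, v'⁆ = 0)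
    (ξ : L →ₗ[𝕜] 𝕜) : Lifts (shiftAlg ξ (fc V : Set (Sy 𝕜 L))) := by
  have hcl : ∀ F ∈ fc V, F ∈ centre 𝕜 L := by
    intro F hF
    rw [fc] at hF
    induction hF using Algebra.adjoin_induction with
    | mem x hx => exact hx.1
    | algebraMap r =>
      intro x
      rw [adS_eq]
      exact Derivation.map_algebraMap _ _
    | add a b _ _ ha hb =>
      intro x
      have ha' := ha x
      have hb' := hb x
      rw [adS_eq] at ha' hb' ⊢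
      rw [map_add, ha', hb', add_zero]
    | mul a b _ _ ha hb =>
      intro x
      have ha' := ha x
      have hb' := hb x
      rw [adS_eq] at ha' hb' ⊢
      rw [Derivation.leibniz, ha', hb', smul_zero, smul_zero, add_zero]
  have hgr : ∀ F ∈ fc V, ∀ n, comp n F ∈ fc V := by
    intro F hF
    rw [fc] at hF
    induction hF using Algebra.adjoin_induction with
    | mem x hx =>
      intro n
      exact Algebra.subset_adjoin ⟨comp_centre hx.1 n, comp_FO hx.2 n⟩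
    | algebraMap r =>
      intro n
      have h1 : algebraMap 𝕜 (Sy 𝕜 L) r ∈ imS 𝕜 L ^ 0 := by
        rw [pow_zero]
        exact Submodule.mem_one.2 ⟨r, rfl⟩
      rw [comp_of_mem h1]
      split_ifs
      · exact Subalgebra.algebraMap_mem _ r
      · exact zero_mem _
    | add a b _ _ ha hb =>
      intro n
      rw [map_add]
      exact add_mem (ha n) (hb n)
    | mul a b _ _ ha hb =>
      intro n
      rw [comp_apply, map_mul, Polynomial.coeff_mul]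
      exact sum_mem fun p _ => mul_mem (ha p.1) (hb p.2)
  have hgen : fc V ≤ Algebra.adjoin 𝕜 ((fc V : Set (Sy 𝕜 L)) ∩ (FO V : Set (Sy 𝕜 L))) := by
    refine Algebra.adjoin_le ?_
    rintro F ⟨hF, hF'⟩
    exact Algebra.subset_adjoin ⟨Algebra.subset_adjoin ⟨hF, hF'⟩, hF'⟩
  exact lifts_shift had hV hab ξ (fc V) (fun F hF => hcl F hF) hgr hgen

end Pool.Agent.helper5.AS
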