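import Mathlib
import Pool.Agent.helper5.AS.Contr

/-!
# Existence of the `Z_2`-contraction
-/

set_option autoImplicit false

namespace Pool.Agent.helper5.AS

open Pool.Agent.helper5.ASQ (Invol brk IsContraction)

variable {𝕜 : Type*} [Field 𝕜] [CharZero 𝕜] {g : Type*} [LieRing g] [LieAlgebra 𝕜 g]
variable (θ : Invol 𝕜 g)

/-! ## existence of the contraction -/

/-- the space of the contraction -/
def Con (_θ : Invol 𝕜 g) : Type _ := g

instance : AddCommGroup (Con θ) := inferInstanceAs (AddCommGroup g)
instance : Module 𝕜 (Con θ) := inferInstanceAs (Module 𝕜 g)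

noncomputable instance : LieRing (Con θ) where
  bracket := fun x y => (brk θ (x : g) (y : g) : g)
  add_lie := ASQ.brk_add_left θ
  lie_add := ASQ.brk_add_right θ
  lie_self := ASQ.brk_self θ
  leibniz_lie := ASQ.brk_jacobi θ

noncomputable instance : LieAlgebra 𝕜 (Con θ) where
  lie_smul := ASQ.brk_smul_right θ

/-- the contraction exists -/
theorem exists_contraction : ∃ e : g ≃ₗ[𝕜] Con θ, IsContraction θ e :=
  ⟨LinearEquiv.refl 𝕜 g, fun _ _ => rfl⟩

end Pool.Agent.helper5.AS
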